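import Pool.Agent.helper8.M4V.Cnt
import Pool.Agent.helper95.M4.EH

/-!
# Project M4 (MP_1b8d20_an, S03975), block V2: the hypotheses `VHyp` for the corners `vs` and the direction `ds` (helper8)
-/

set_option autoImplicit false

namespace Pool.Agent.M4

open Complex ComplexConjugate Topology Filter
open M4J (thL aA DD)

/-- near a top point every top word is a weak top word at the point. -/
theorem near_wtop {w0 : List Bool} {z0 : ℂ} (h0 : InT w0 z0) {w : List Bool} (hw : ∃ᶠ z in 𝓝 z0, InT w z) :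
    NZ w z0 ∧ WTop (Lf w z0) (Nf w z0) (Rf w z0) ∧ (w = w0 ∨
      (w = true :: w0 ∧ ‖Lf w0 z0‖ = ‖Nf w0 z0 - I * Rf w0 z0‖ ∧ 0 < (Nf w0 z0).im) ∨
      (w = false :: w0 ∧ ‖Rf w0 z0‖ = ‖Lf w0 z0 - I * Nf w0 z0‖ ∧ (Nf w0 z0).im < 0)) := by
  obtain ⟨z, hz, hn⟩ := (hw.and_eventually (InT_near h0)).exists
  have had := ADM w0 z0 h0.1
  have hm := Mk_Tr w0 z0
  rcases hn w hz with rfl | ⟨rfl, h1, h2⟩ | ⟨rfl, h1, h2⟩
  · exact ⟨NZ_of_Ch h0.1, h0.wtop, Or.inl rfl⟩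
  · have hR : ‖Rf w0 z0‖ < ‖Lf w0 z0 - I * Nf w0 z0‖ := by
      rcases h0.2.ne with h | h
      · exact absurd h1 h.ne
      · exact h
    have him := IDL_im had hm h0.2.reNR h0.2.reLN h1 hR
    exact ⟨h2, WTop_childL had hm h0.2.reNR him h1, Or.inr (Or.inl ⟨rfl, h1, him⟩)⟩
  · have hL : ‖Lf w0 z0‖ < ‖Nf w0 z0 - I * Rf w0 z0‖ := by
      rcases h0.2.ne with h | h
      · exact h
      · exact absurd h1 h.ne
    have him := IDR_im had hm h0.2.reNR h0.2.reLN h1 hL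
    exact ⟨h2, WTop_childR had hm h0.2.reLN him h1, Or.inr (Or.inr ⟨rfl, h1, him⟩)⟩

/-- VHyp.lim -/
theorem VH_lim {w0 : List Bool} {z0 : ℂ} (h0 : InT w0 z0) {w : List Bool} (hw : ∃ᶠ z in 𝓝 z0, InT w z) : VLim vs ds w z0 := by
  obtain ⟨h1, h2, -⟩ := near_wtop h0 hw
  exact ⟨h1, CHS h1 h2, fun j hj => (vs_nd h1 h2 j hj).1, fun j => (vs_cont h1 h2 j).tendsto.mono_left nhdsWithin_le_nhds,
    (ds_cont h2).tendsto.mono_left nhdsWithin_le_nhds⟩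

end Pool.Agent.M4
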