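import Pool.Agent.helper8.M4V.Tri
import Pool.Agent.helper95.M4.LT

/-!
# Project M4 (MP_1b8d20_an, S03975), block V: the bottom chain of a weak top triple is a chain (helper8)
-/

set_option autoImplicit false

namespace Pool.Agent.M4

open Complex ComplexConjugate Topology Filter
open M4J (thL aA DD)

/-- the three half angles of a weak top triple. -/
theorem WTop.angles {L N R : ℂ} (h : WTop L N R) : 0 ≤ thL L N R ∧ 0 ≤ thL N R L ∧ 0 ≤ thL R L N ∧
    (thL L N R = 0 → 0 < thL N R L ∧ 0 < thL R L N) ∧ (thL N R L = 0 → 0 < thL R L N ∧ 0 < thL L N R) ∧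
    (thL R L N = 0 → 0 < thL L N R ∧ 0 < thL N R L) ∧ thL L N R + thL N R L + thL R L N = Real.pi / 2 := by
  have hL0 : L ≠ 0 := by rintro rfl; have := h.reL; simp at this
  have hN0 : N ≠ 0 := by rintro rfl; have := h.reN; simp at this
  have hR0 : R ≠ 0 := by rintro rfl; have := h.reR; simp at this
  have n1 := h.n1
  have n2 := h.n2
  have n3 := h.n3
  have s1 := sgn_weak (X := L) hN0 hR0 h.NR.le (by linarith) (by linarith) (by linarith)
  have hRL : 0 ≤ (R * conj L).re := by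
    have := h.LR
    simp only [mul_re, conj_re, conj_im] at this ⊢
    linarith
  have s2 := sgn_weak (X := N) hR0 hL0 hRL (by linarith) (by linarith) (by linarith)
  have s3 := sgn_weak (X := R) hL0 hN0 h.LN.le (by linarith) (by linarith) (by linarith)
  have e : ‖R - I * L‖ = ‖L + I * R‖ := by
    have : R - I * L = -I * (L + I * R) := by linear_combination (R) * I_sq
    rw [this, norm_mul, norm_neg, norm_I, one_mul]
  rw [e] at s2
  have p1 : ∀ {x : ℝ} {a b : ℝ}, (0 ≤ x ↔ a ≤ b) ∧ (0 < x ↔ a < b) → x = 0 → ¬ a < b := by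
    intro x a b h1 h2 h3
    have := h1.2.2 h3
    linarith
  refine ⟨s1.1.2 h.hL, s2.1.2 h.hN, s3.1.2 h.hR, fun h0 => ?_, fun h0 => ?_, fun h0 => ?_, thL_sum h.reL h.reN h.reR n1 n2 n3⟩
  · have := p1 s1 h0
    exact ⟨s2.2.2 (h.t2.resolve_left this), s3.2.2 (h.t1.resolve_left this)⟩
  · have := p1 s2 h0
    exact ⟨s3.2.2 (h.t3.resolve_left this), s1.2.2 (h.t2.resolve_right this)⟩
  · have := p1 s3 h0
    exact ⟨s1.2.2 (h.t1.resolve_right this), s2.2.2 (h.t3.resolve_right this)⟩

theorem Xs_per (w : List Bool) (z : ℂ) (j : ℤ) : Xs w z (j + 3) = Xs w z j := by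
  unfold Xs
  have h : (j + 3) % 3 = j % 3 := by omega
  rw [h]

theorem cs_per (w : List Bool) (z : ℂ) (j : ℤ) : cs w z (j + 3) = cs w z j + 1 := by
  unfold cs
  have h : (j + 3) % 3 = j % 3 := by omega
  have h2 : (j + 3) / 3 = j / 3 + 1 := by omega
  rw [h, h2]
  push_cast
  ring

theorem ths_0 (w : List Bool) (z : ℂ) (a : ℤ) : ths w z (3 * a) = thL (Lf w z) (Nf w z) (Rf w z) := by
  unfold ths
  rw [Xs_0, Xs_1, Xs_2]

theorem ths_1 (w : List Bool) (z : ℂ) (a : ℤ) : ths w z (3 * a + 1) = thL (Nf w z) (Rf w z) (Lf w z) := by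
  unfold ths
  have e1 : 3 * a + 1 + 1 = 3 * a + 2 := by ring
  have e2 : 3 * a + 1 + 2 = 3 * (a + 1) := by ring
  rw [e1, e2, Xs_0, Xs_1, Xs_2]

theorem ths_2 (w : List Bool) (z : ℂ) (a : ℤ) : ths w z (3 * a + 2) = thL (Rf w z) (Lf w z) (Nf w z) := by
  unfold ths
  have e1 : 3 * a + 2 + 1 = 3 * (a + 1) := by ring
  have e2 : 3 * a + 2 + 2 = 3 * (a + 1) + 1 := by ring
  rw [e1, e2, Xs_0, Xs_1, Xs_2]

/-- the bottom chain in theta form. -/
noncomputable def mkC (w : List Bool) (z : ℂ) (hz : NZ w z) (h : WTop (Lf w z) (Nf w z) (Rf w z)) : M4V.Cth where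
  X := Xs w z
  th := ths w z
  c := cs w z
  X0 := by
    obtain ⟨-, h1, h2, h3⟩ := hz.all
    intro k
    rcases mod3 k with ⟨a, rfl⟩ | ⟨a, rfl⟩ | ⟨a, rfl⟩
    · rw [Xs_0]; exact h1
    · rw [Xs_1]; exact h2
    · rw [Xs_2]; exact h3
  Xp := Xs_per w z
  tp := by
    intro k
    unfold ths
    have e1 : k + 3 + 1 = (k + 1) + 3 := by ring
    have e2 : k + 3 + 2 = (k + 2) + 3 := by ring
    rw [e1, e2, Xs_per, Xs_per, Xs_per]
  cp := cs_per w z
  t0 := by
    obtain ⟨h1, h2, h3, -⟩ := h.angles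
    intro k
    rcases mod3 k with ⟨a, rfl⟩ | ⟨a, rfl⟩ | ⟨a, rfl⟩
    · rw [ths_0]; exact h1
    · rw [ths_1]; exact h2
    · rw [ths_2]; exact h3
  t1 := by
    obtain ⟨h1, h2, h3, h4, h5, h6, h7⟩ := h.angles
    intro k
    rcases mod3 k with ⟨a, rfl⟩ | ⟨a, rfl⟩ | ⟨a, rfl⟩
    · rw [ths_0]
      rcases h2.eq_or_lt with h8 | h8
      · have := (h5 h8.symm).1; linarith
      · linarith
    · rw [ths_1]
      rcases h3.eq_or_lt with h8 | h8
      · have := (h6 h8.symm).1; linarith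
      · linarith
    · rw [ths_2]
      rcases h1.eq_or_lt with h8 | h8
      · have := (h4 h8.symm).1; linarith
      · linarith
  two := by
    obtain ⟨h1, h2, h3, h4, h5, h6, h7⟩ := h.angles
    intro k
    rcases mod3 k with ⟨a, rfl⟩ | ⟨a, rfl⟩ | ⟨a, rfl⟩
    · rw [ths_0, ths_1, ths_2]; exact h4
    · have e1 : 3 * a + 1 + 1 = 3 * a + 2 := by ring
      have e2 : 3 * a + 1 + 2 = 3 * (a + 1) := by ring
      rw [e1, e2, ths_0, ths_1, ths_2]; exact h5
    · have e1 : 3 * a + 2 + 1 = 3 * (a + 1) := by ring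
      have e2 : 3 * a + 2 + 2 = 3 * (a + 1) + 1 := by ring
      rw [e1, e2, ths_0, ths_1, ths_2]; exact h6
  rl := by
    obtain ⟨h1, h2, h3⟩ := CEN hz
    intro k
    rcases mod3 k with ⟨a, rfl⟩ | ⟨a, rfl⟩ | ⟨a, rfl⟩
    · rw [Xs_0, Xs_1, Xs_2, cs_0, cs_1]
      linear_combination h1
    · have e1 : 3 * a + 1 + 1 = 3 * a + 2 := by ring
      have e2 : 3 * a + 1 + 2 = 3 * (a + 1) := by ring
      rw [e1, e2, Xs_0, Xs_1, Xs_2, cs_1, cs_2]
      linear_combination h2
    · have e1 : 3 * a + 2 + 1 = 3 * (a + 1) := by ring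
      have e2 : 3 * a + 2 + 2 = 3 * (a + 1) + 1 := by ring
      rw [e1, e2, Xs_0, Xs_1, Xs_2, cs_0, cs_2, mul_comm (Rf w z)]
      push_cast
      linear_combination h3
  st := by
    obtain ⟨-, h1, h2, h3⟩ := hz.all
    have n1 := h.n1
    have n2 := h.n2
    have n3 := h.n3
    intro k
    rcases mod3 k with ⟨a, rfl⟩ | ⟨a, rfl⟩ | ⟨a, rfl⟩
    · rw [Xs_0, Xs_1, Xs_2, ths_0, ths_1]
      exact STARC h1 h2 h3 n1 n2 n3
    · have e1 : 3 * a + 1 + 1 = 3 * a + 2 := by ring
      have e2 : 3 * a + 1 + 2 = 3 * (a + 1) := by ring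
      rw [e1, e2, Xs_0, Xs_1, Xs_2, ths_1, ths_2]
      exact STARC h2 h3 h1 (by linarith) (by linarith) (by linarith)
    · have e1 : 3 * a + 2 + 1 = 3 * (a + 1) := by ring
      have e2 : 3 * a + 2 + 2 = 3 * (a + 1) + 1 := by ring
      rw [e1, e2, Xs_0, Xs_1, Xs_2, ths_0, ths_2]
      exact STARC h3 h1 h2 (by linarith) (by linarith) (by linarith)

/-- weighted averages of the arguments. -/
theorem avg_lt {a b c x y w : ℝ} (_ : 0 ≤ x) (hy : 0 ≤ y) (hw : 0 ≤ w) (hs : x + y + w = Real.pi / 2) (hab : |b - a| ≤ Real.pi / 2) (hac : |c - a| ≤ Real.pi / 2)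
    (hst : (0 < y ∧ |b - a| < Real.pi / 2) ∨ (0 < w ∧ |c - a| < Real.pi / 2)) :
    |2 / Real.pi * (x * a + y * b + w * c) - a| < Real.pi / 2 - x := by
  have hpi := Real.pi_pos
  have e : 2 / Real.pi * (x * a + y * b + w * c) - a = 2 / Real.pi * (y * (b - a) + w * (c - a)) := by
    have : x = Real.pi / 2 - y - w := by linarith
    rw [this]
    field_simp
    ring
  rw [e, abs_mul, abs_of_pos (by positivity : (0 : ℝ) < 2 / Real.pi)]
  have h1 : |y * (b - a) + w * (c - a)| ≤ y * |b - a| + w * |c - a| := by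
    refine (abs_add_le _ _).trans ?_
    rw [abs_mul, abs_mul, abs_of_nonneg hy, abs_of_nonneg hw]
  have h2 : y * |b - a| + w * |c - a| < (y + w) * (Real.pi / 2) := by
    rcases hst with ⟨h3, h4⟩ | ⟨h3, h4⟩
    · have h5 := mul_lt_mul_of_pos_left h4 h3
      have h6 := mul_le_mul_of_nonneg_left hac hw
      linarith
    · have h5 := mul_lt_mul_of_pos_left h4 h3
      have h6 := mul_le_mul_of_nonneg_left hab hy
      linarith
  calc 2 / Real.pi * |y * (b - a) + w * (c - a)| < 2 / Real.pi * ((y + w) * (Real.pi / 2)) :=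
        mul_lt_mul_of_pos_left (h1.trans_lt h2) (by positivity)
    _ = Real.pi / 2 - x := by
        field_simp
        linarith

theorem arg_sub_le {X Y : ℂ} (hX : 0 < X.re) (hY : 0 < Y.re) (h : 0 ≤ (X * conj Y).re) : |arg X - arg Y| ≤ Real.pi / 2 := by
  have hY0 : Y ≠ 0 := by rintro rfl; simp at hY
  rw [← (arg_div_pos hX hY).1, Complex.abs_arg_le_pi_div_two_iff, div_re]
  have hns : 0 < normSq Y := normSq_pos.2 hY0
  have e : X.re * Y.re / normSq Y + X.im * Y.im / normSq Y = (X * conj Y).re / normSq Y := by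
    simp only [mul_re, conj_re, conj_im]; ring
  rw [e]; exact div_nonneg h hns.le

theorem arg_sub_lt {X Y : ℂ} (hX : 0 < X.re) (hY : 0 < Y.re) (h : 0 < (X * conj Y).re) : |arg X - arg Y| < Real.pi / 2 := by
  have hY0 : Y ≠ 0 := by rintro rfl; simp at hY
  rw [← (arg_div_pos hX hY).1, Complex.abs_arg_lt_pi_div_two_iff, div_re]
  have hns : 0 < normSq Y := normSq_pos.2 hY0
  have e : X.re * Y.re / normSq Y + X.im * Y.im / normSq Y = (X * conj Y).re / normSq Y := by
    simp only [mul_re, conj_re, conj_im]; ring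
  rw [e]; exact Or.inl (div_pos h hns)

/-- the canonical direction is good, angle form. -/
theorem psi_lt {w : List Bool} {z : ℂ} (h : WTop (Lf w z) (Nf w z) (Rf w z)) (k : ℤ) : |psi w z - arg (Xs w z k)| < Real.pi / 2 - ths w z k := by
  obtain ⟨h1, h2, h3, h4, h5, h6, h7⟩ := h.angles
  have t0 := ths_0 w z 0
  have t1 := ths_1 w z 0
  have t2 := ths_2 w z 0
  have x0 := Xs_0 w z 0
  have x1 := Xs_1 w z 0
  have x2 := Xs_2 w z 0
  norm_num at t0 t1 t2 x0 x1 x2
  have cj : ∀ {X Y : ℂ}, (X * conj Y).re = (Y * conj X).re := by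
    intro X Y
    simp only [mul_re, conj_re, conj_im]; ring
  have aLN := arg_sub_lt h.reL h.reN h.LN
  have aNR := arg_sub_lt h.reN h.reR h.NR
  have aLR := arg_sub_le h.reL h.reR h.LR
  unfold psi
  rw [t0, t1, t2, x0, x1, x2]
  rcases mod3 k with ⟨a, rfl⟩ | ⟨a, rfl⟩ | ⟨a, rfl⟩
  · rw [Xs_0, ths_0]
    refine avg_lt h1 h2 h3 h7 (by rw [abs_sub_comm]; exact aLN.le) (by rw [abs_sub_comm]; exact aLR) ?_
    rcases h2.eq_or_lt with h8 | h8
    · right
      refine ⟨(h5 h8.symm).1, ?_⟩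
      have hsn := h.cor.resolve_left (by
        intro h9
        have hN0 : Nf w z ≠ 0 := by intro h0; have := h.reN; rw [h0] at this; simp at this
        have hL0 : Lf w z ≠ 0 := by intro h0; have := h.reL; rw [h0] at this; simp at this
        have hR0 : Rf w z ≠ 0 := by intro h0; have := h.reR; rw [h0] at this; simp at this
        have n1 := h.n1
        have n2 := h.n2
        have n3 := h.n3
        have s2 := sgn_weak (X := Nf w z) hR0 hL0 (by rw [cj]; exact h.LR) (by linarith) (by linarith) (by linarith)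
        have e : ‖Rf w z - I * Lf w z‖ = ‖Lf w z + I * Rf w z‖ := by
          have : Rf w z - I * Lf w z = -I * (Lf w z + I * Rf w z) := by linear_combination (Rf w z) * I_sq
          rw [this, norm_mul, norm_neg, norm_I, one_mul]
        rw [e] at s2
        have := s2.2.2 h9
        linarith)
      rw [abs_sub_comm]
      exact arg_sub_lt h.reL h.reR hsn
    · left
      exact ⟨h8, by rw [abs_sub_comm]; exact aLN⟩
  · rw [Xs_1, ths_1]
    have := avg_lt (a := arg (Nf w z)) (b := arg (Lf w z)) (c := arg (Rf w z)) h2 h1 h3 (by linarith) aLN.le (by rw [abs_sub_comm]; exact aNR.le) (by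
      rcases h1.eq_or_lt with h8 | h8
      · right
        exact ⟨(h4 h8.symm).2, by rw [abs_sub_comm]; exact aNR⟩
      · left
        exact ⟨h8, aLN⟩)
    have e : thL (Lf w z) (Nf w z) (Rf w z) * arg (Lf w z) + thL (Nf w z) (Rf w z) (Lf w z) * arg (Nf w z) + thL (Rf w z) (Lf w z) (Nf w z) * arg (Rf w z) =
      thL (Nf w z) (Rf w z) (Lf w z) * arg (Nf w z) + thL (Lf w z) (Nf w z) (Rf w z) * arg (Lf w z) + thL (Rf w z) (Lf w z) (Nf w z) * arg (Rf w z) := by ring
    rw [e]
    exact this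
  · rw [Xs_2, ths_2]
    have := avg_lt (a := arg (Rf w z)) (b := arg (Nf w z)) (c := arg (Lf w z)) h3 h2 h1 (by linarith) aNR.le aLR (by
      rcases h2.eq_or_lt with h8 | h8
      · right
        refine ⟨(h5 h8.symm).2, ?_⟩
        have hsn := h.cor.resolve_left (by
          intro h9
          have hN0 : Nf w z ≠ 0 := by intro h0; have := h.reN; rw [h0] at this; simp at this
          have hL0 : Lf w z ≠ 0 := by intro h0; have := h.reL; rw [h0] at this; simp at this
          have hR0 : Rf w z ≠ 0 := by intro h0; have := h.reR; rw [h0] at this; simp at this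
          have n1 := h.n1
          have n2 := h.n2
          have n3 := h.n3
          have s2 := sgn_weak (X := Nf w z) hR0 hL0 (by rw [cj]; exact h.LR) (by linarith) (by linarith) (by linarith)
          have e : ‖Rf w z - I * Lf w z‖ = ‖Lf w z + I * Rf w z‖ := by
            have : Rf w z - I * Lf w z = -I * (Lf w z + I * Rf w z) := by linear_combination (Rf w z) * I_sq
            rw [this, norm_mul, norm_neg, norm_I, one_mul]
          rw [e] at s2
          have := s2.2.2 h9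
          linarith)
        exact arg_sub_lt h.reL h.reR hsn
      · left
        exact ⟨h8, aNR⟩)
    have e : thL (Lf w z) (Nf w z) (Rf w z) * arg (Lf w z) + thL (Nf w z) (Rf w z) (Lf w z) * arg (Nf w z) + thL (Rf w z) (Lf w z) (Nf w z) * arg (Rf w z) =
      thL (Rf w z) (Lf w z) (Nf w z) * arg (Rf w z) + thL (Nf w z) (Rf w z) (Lf w z) * arg (Nf w z) + thL (Lf w z) (Nf w z) (Rf w z) * arg (Lf w z) := by ring
    rw [e]
    exact this

/-- the canonical direction is good. -/
theorem oms_ok {w : List Bool} {z : ℂ} (hz : NZ w z) (h : WTop (Lf w z) (Nf w z) (Rf w z)) : M4V.Ok (mkC w z hz h) (oms w z) := by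
  intro k
  have hX0 : Xs w z k ≠ 0 := (mkC w z hz h).X0 k
  have hn : 0 < ‖Xs w z k‖ := norm_pos_iff.2 hX0
  have hp := psi_lt h k
  have ht : 0 ≤ ths w z k := (mkC w z hz h).t0 k
  obtain ⟨p1, p2⟩ := abs_lt.1 hp
  have h4 : (‖Xs w z k‖ : ℂ) * exp (arg (Xs w z k) * I) = Xs w z k := Complex.norm_mul_exp_arg_mul_I _
  have key : ∀ s : ℝ, |s| ≤ ths w z k → 0 < (exp (s * I) * oms w z / Xs w z k).re := by
    intro s hs
    obtain ⟨s1, s2⟩ := abs_le.1 hs
    have e : exp (s * I) * oms w z / Xs w z k = ((1 / ‖Xs w z k‖ : ℝ) : ℂ) * exp (((s + psi w z - arg (Xs w z k) : ℝ) : ℂ) * I) := by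
      have e1 : ((s + psi w z - arg (Xs w z k) : ℝ) : ℂ) * I = s * I + psi w z * I - arg (Xs w z k) * I := by push_cast; ring
      rw [e1, Complex.exp_sub, Complex.exp_add]
      unfold oms
      have hnc : (‖Xs w z k‖ : ℂ) ≠ 0 := by exact_mod_cast hn.ne'
      have hE : exp (arg (Xs w z k) * I) ≠ 0 := Complex.exp_ne_zero _
      nth_rewrite 1 [← h4]
      push_cast
      field_simp
    rw [e, Complex.re_ofReal_mul, Complex.exp_ofReal_mul_I_re]
    exact mul_pos (by positivity) (Real.cos_pos_of_mem_Ioo ⟨by linarith, by linarith⟩)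
  refine ⟨key (ths w z k) (by rw [abs_of_nonneg ht]), ?_⟩
  have := key (-(ths w z k)) (by rw [abs_neg, abs_of_nonneg ht])
  have e2 : ((-(ths w z k) : ℝ) : ℂ) * I = -(ths w z k * I) := by push_cast; ring
  rw [e2] at this
  exact this

/-- from the theta form to the slab language. -/
theorem chs_of {D : M4V.Cth} {ω : ℂ} (h : M4V.Ok D ω) (h1 : ‖ω‖ = 1) : ChS D.X D.c (M4V.vx D) (-I * conj ω) := by
  have e0 : ∀ k, M4V.vx D k - D.c k = -(I * exp (D.th k * I) / D.X k) := by
    intro k; unfold M4V.vx M4V.G; ring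
  have e1 : ∀ k, M4V.vx D k - D.c (k + 1) = -(I * exp (-(D.th (k + 1) * I)) / D.X (k + 1)) := by
    intro k
    rw [M4V.vx_eq]
    unfold M4V.G
    have e : ((-(D.th (k + 1)) : ℝ) : ℂ) * I = -(D.th (k + 1) * I) := by push_cast; ring
    rw [e]; ring
  have hn : ∀ k, ‖D.X k‖ ≠ 0 := fun k => norm_ne_zero_iff.2 (D.X0 k)
  have hexp : ∀ t : ℝ, ‖exp (-(t * I))‖ = 1 := by
    intro t
    have e : -((t : ℂ) * I) = ((-t : ℝ) : ℂ) * I := by push_cast; ring
    rw [e, Complex.norm_exp_ofReal_mul_I]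
  have hcd : conj (-I * conj ω) = I * ω := by
    rw [map_mul, map_neg, conj_I, Complex.conj_conj, neg_neg]
  have hId : conj (I * (-I * conj ω)) = ω := by
    rw [map_mul, hcd, conj_I]
    linear_combination (-ω) * I_sq
  refine { perX := D.Xp, perc := D.cp, perv := ?_, nz := D.X0, st := D.rl, vr := ?_, vl := ?_, d1 := ?_, dim := ?_, dr := ?_, dl := ?_, mono := ?_, sw := ?_ }
  · intro j
    have := M4V.vx_per D j 1
    simpa using this
  · intro j
    rw [e0, norm_neg, norm_div, norm_mul, norm_I, one_mul, Complex.norm_exp_ofReal_mul_I]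
    have := hn j
    field_simp
  · intro j
    rw [e1, norm_neg, norm_div, norm_mul, norm_I, one_mul, hexp]
    have := hn (j + 1)
    field_simp
  · rw [norm_mul, norm_neg, norm_I, Complex.norm_conj, h1, one_mul]
  · have := h.repos
    simp only [mul_im, neg_re, neg_im, I_re, I_im, conj_re, conj_im]
    linarith
  · intro j
    rw [e0, hcd]
    have := (h j).1
    have e : -(I * exp (D.th j * I) / D.X j) * (I * ω) = exp (D.th j * I) * ω / D.X j := by
      linear_combination (-(exp (D.th j * I) * ω / D.X j)) * I_sq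
    rw [e]; exact this
  · intro j
    rw [e1, hcd]
    have := (h (j + 1)).2
    have e : -(I * exp (-(D.th (j + 1) * I)) / D.X (j + 1)) * (I * ω) = exp (-(D.th (j + 1) * I)) * ω / D.X (j + 1) := by
      linear_combination (-(exp (-(D.th (j + 1) * I)) * ω / D.X (j + 1))) * I_sq
    rw [e]; exact this
  · intro j
    rw [hId, mul_comm, mul_comm (M4V.vx D j)]
    exact (M4V.sg_chord h j).1
  · intro j
    rw [M4V.vx_pred]
    unfold M4V.vx M4V.G
    have hX := D.X0 j
    have e : ((-(D.th j) : ℝ) : ℂ) * I = -(D.th j * I) := by push_cast; ring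
    rw [e]
    have e3 : exp (-(D.th j * I)) * exp (D.th j * I) = 1 := by rw [← Complex.exp_add]; simp
    generalize exp (-(D.th j * I)) = A at e3
    generalize exp (D.th j * I) = B at e3
    have hI : I * I = -1 := I_mul_I
    rw [eq_div_iff (pow_ne_zero 2 hX)]
    have e4 : (D.c j - I * A / D.X j - D.c j) * (D.c j - I * B / D.X j - D.c j) * D.X j ^ 2 = (I * I) * (A * B) := by
      field_simp
      ring
    rw [e4, e3, hI, mul_one]

/-- **ChS** for the bottom chain of a weak top triple. -/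
theorem CHS {w : List Bool} {z : ℂ} (hz : NZ w z) (h : WTop (Lf w z) (Nf w z) (Rf w z)) : ChS (Xs w z) (cs w z) (vs w z) (ds w z) := by
  have h1 : ‖oms w z‖ = 1 := Complex.norm_exp_ofReal_mul_I _
  exact chs_of (oms_ok hz h) h1

/-- chords of the bottom chain. -/
theorem vs_chord {w : List Bool} {z : ℂ} (hz : NZ w z) (h : WTop (Lf w z) (Nf w z) (Rf w z)) (k : ℤ) :
    vs w z k - vs w z (k - 1) = 2 * Real.sin (ths w z k) / Xs w z k :=
  M4V.vx_chord (mkC w z hz h) k

theorem vs_eq_iff {w : List Bool} {z : ℂ} (hz : NZ w z) (h : WTop (Lf w z) (Nf w z) (Rf w z)) (k : ℤ) :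
    vs w z (k - 1) = vs w z k ↔ ths w z k = 0 := by
  have h1 := vs_chord hz h k
  have hX : Xs w z k ≠ 0 := (mkC w z hz h).X0 k
  have h2 : 0 ≤ ths w z k := (mkC w z hz h).t0 k
  have h3 : ths w z k < Real.pi / 2 := (mkC w z hz h).t1 k
  constructor
  · intro h4
    rw [h4, sub_self] at h1
    by_contra h5
    have h6 : 0 < Real.sin (ths w z k) := Real.sin_pos_of_pos_of_lt_pi (lt_of_le_of_ne h2 (Ne.symm h5)) (by linarith [Real.pi_pos])
    have h7 : (2 * Real.sin (ths w z k) / Xs w z k : ℂ) ≠ 0 := by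
      apply div_ne_zero _ hX
      have : (Real.sin (ths w z k) : ℂ) ≠ 0 := by exact_mod_cast h6.ne'
      simpa using this
    exact h7 h1.symm
  · intro h4
    rw [h4, Real.sin_zero] at h1
    simp at h1
    exact (sub_eq_zero.1 h1).symm

/-- **nd**: at most one of three consecutive arcs is degenerate. -/
theorem vs_nd {w : List Bool} {z : ℂ} (hz : NZ w z) (h : WTop (Lf w z) (Nf w z) (Rf w z)) (k : ℤ) (h0 : vs w z (k - 1) = vs w z k) :
    vs w z k ≠ vs w z (k + 1) ∧ vs w z (k - 2) ≠ vs w z (k - 1) := by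
  rw [vs_eq_iff hz h] at h0
  obtain ⟨h1, h2⟩ := (mkC w z hz h).two k h0
  constructor
  · intro h3
    have h4 := (vs_eq_iff hz h (k + 1)).1 (by rw [add_sub_cancel_right]; exact h3)
    exact h1.ne' h4
  · intro h3
    have e : k - 2 = (k - 1) - 1 := by ring
    rw [e] at h3
    have h4 := (vs_eq_iff hz h (k - 1)).1 h3
    have h5 := (mkC w z hz h).tp (k - 1)
    have e2 : k - 1 + 3 = k + 2 := by ring
    rw [e2] at h5
    have h6 : (mkC w z hz h).th (k + 2) = 0 := by rw [h5]; exact h4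
    exact h2.ne' h6

end Pool.Agent.M4
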