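import Pool.Agent.helper8.M4V.Chs

/-!
# Project M4 (MP_1b8d20_an, S03975), block V: continuity of the bottom chain in `z`, and the thetas at a wall (helper8)
-/

set_option autoImplicit false

namespace Pool.Agent.M4

open Complex ComplexConjugate Topology Filter
open M4J (thL aA DD)

/-- continuity of the half angle. -/
theorem thL_cont {X Y Z : ℂ → ℂ} {z : ℂ} (hX : ContinuousAt X z) (hY : ContinuousAt Y z) (hZ : ContinuousAt Z z)
    (hY0 : Y z ≠ 0) (hZ0 : Z z ≠ 0) (hs : Y z / Z z ∈ slitPlane) : ContinuousAt (fun y => thL (X y) (Y y) (Z y)) z := by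
  have h1 : ContinuousAt (fun y => Y y / Z y) z := hY.div hZ hZ0
  have h2 : ContinuousAt (fun y => arg (Y y / Z y)) z :=
    ContinuousAt.comp (f := fun y => Y y / Z y) (g := arg) (Complex.continuousAt_arg hs) h1
  have h3 : ContinuousAt (fun y => (‖Y y‖ ^ 2 + ‖Z y‖ ^ 2 - ‖X y‖ ^ 2) / (2 * ‖Y y‖ * ‖Z y‖)) z := by
    refine ContinuousAt.div (((hY.norm.pow 2).add (hZ.norm.pow 2)).sub (hX.norm.pow 2)) ((continuousAt_const.mul hY.norm).mul hZ.norm) ?_
    have := norm_pos_iff.2 hY0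
    have := norm_pos_iff.2 hZ0
    positivity
  have h4 : ContinuousAt (fun y => aA ‖X y‖ ‖Y y‖ ‖Z y‖) z := Real.continuous_arccos.continuousAt.comp h3
  exact (continuousAt_const.sub h4).sub h2

theorem slit_of {Y Z : ℂ} (hY : 0 < Y.re) (hZ : 0 < Z.re) : Y / Z ∈ slitPlane := by
  rw [Complex.mem_slitPlane_iff_arg]
  obtain ⟨h1, h2, h3⟩ := arg_div_pos hY hZ
  have a1 := abs_lt.1 h2
  have a2 := abs_lt.1 h3
  refine ⟨?_, ?_⟩
  · rw [h1]
    intro h4
    linarith
  · apply div_ne_zero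
    · rintro rfl; simp at hY
    · rintro rfl; simp at hZ

theorem Xs_cnt (w : List Bool) (z : ℂ) (j : ℤ) : ContinuousAt (fun y => Xs w y j) z := by
  obtain ⟨dL, dN, dR⟩ := Diff_Tr w
  rcases mod3 j with ⟨a, rfl⟩ | ⟨a, rfl⟩ | ⟨a, rfl⟩
  · simp only [Xs_0]; exact dL.continuous.continuousAt
  · simp only [Xs_1]; exact dN.continuous.continuousAt
  · simp only [Xs_2]; exact dR.continuous.continuousAt

theorem cen_cnt {w : List Bool} {z : ℂ} (hz : NZ w z) : ContinuousAt (cL w) z ∧ ContinuousAt (cN w) z ∧ ContinuousAt (cR w) z := by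
  induction w with
  | nil =>
    have hz0 : z ≠ 0 := hz
    refine ⟨?_, ?_, ?_⟩
    · exact continuousAt_const
    · exact (continuousAt_id.pow 2).inv₀ (pow_ne_zero 2 hz0)
    · exact continuousAt_const
  | cons b w ih =>
    obtain ⟨h1, h2⟩ := hz
    obtain ⟨c1, c2, c3⟩ := ih h1
    obtain ⟨-, n1, n2, n3⟩ := h1.all
    obtain ⟨dL, dN, dR⟩ := Diff_Tr w
    have dK := (Diff_Tr (b :: w)).2.1
    cases b with
    | true =>
      refine ⟨c2, ?_, c3⟩
      exact c2.add (dR.continuous.continuousAt.div (dN.continuous.continuousAt.mul dK.continuous.continuousAt) (mul_ne_zero n2 h2))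
    | false =>
      refine ⟨c1, ?_, c2⟩
      exact c1.add (dN.continuous.continuousAt.div (dL.continuous.continuousAt.mul dK.continuous.continuousAt) (mul_ne_zero n1 h2))

theorem cs_cnt {w : List Bool} {z : ℂ} (hz : NZ w z) (j : ℤ) : ContinuousAt (fun y => cs w y j) z := by
  obtain ⟨c1, c2, c3⟩ := cen_cnt hz
  rcases mod3 j with ⟨a, rfl⟩ | ⟨a, rfl⟩ | ⟨a, rfl⟩
  · simp only [cs_0]; exact c1.add continuousAt_const
  · simp only [cs_1]; exact c2.add continuousAt_const
  · simp only [cs_2]; exact c3.add continuousAt_const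

/-- all three entries have positive real part. -/
theorem Xs_re {w : List Bool} {z : ℂ} (h : WTop (Lf w z) (Nf w z) (Rf w z)) (j : ℤ) : 0 < (Xs w z j).re := by
  rcases mod3 j with ⟨a, rfl⟩ | ⟨a, rfl⟩ | ⟨a, rfl⟩
  · rw [Xs_0]; exact h.reL
  · rw [Xs_1]; exact h.reN
  · rw [Xs_2]; exact h.reR

theorem ths_cont {w : List Bool} {z : ℂ} (h : WTop (Lf w z) (Nf w z) (Rf w z)) (j : ℤ) : ContinuousAt (fun y => ths w y j) z := by
  have hne : ∀ j, Xs w z j ≠ 0 := by
    intro j h0
    have := Xs_re h j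
    rw [h0] at this
    simp at this
  exact thL_cont (Xs_cnt w z j) (Xs_cnt w z (j + 1)) (Xs_cnt w z (j + 2)) (hne _) (hne _) (slit_of (Xs_re h _) (Xs_re h _))

theorem psi_cont {w : List Bool} {z : ℂ} (h : WTop (Lf w z) (Nf w z) (Rf w z)) : ContinuousAt (psi w) z := by
  have ha : ∀ j, ContinuousAt (fun y => arg (Xs w y j)) z := by
    intro j
    exact ContinuousAt.comp (f := fun y => Xs w y j) (g := arg) (Complex.continuousAt_arg (Or.inl (Xs_re h j))) (Xs_cnt w z j)
  exact continuousAt_const.mul ((((ths_cont h 0).mul (ha 0)).add ((ths_cont h 1).mul (ha 1))).add ((ths_cont h 2).mul (ha 2)))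

theorem oms_cont {w : List Bool} {z : ℂ} (h : WTop (Lf w z) (Nf w z) (Rf w z)) : ContinuousAt (oms w) z := by
  have h1 : ContinuousAt (fun y => ((psi w y : ℝ) : ℂ) * I) z := (Complex.continuous_ofReal.continuousAt.comp (psi_cont h)).mul continuousAt_const
  exact Complex.continuous_exp.continuousAt.comp h1

theorem ds_cont {w : List Bool} {z : ℂ} (h : WTop (Lf w z) (Nf w z) (Rf w z)) : ContinuousAt (ds w) z :=
  continuousAt_const.mul (Complex.continuous_conj.continuousAt.comp (oms_cont h))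

theorem vs_cont {w : List Bool} {z : ℂ} (hz : NZ w z) (h : WTop (Lf w z) (Nf w z) (Rf w z)) (j : ℤ) : ContinuousAt (fun y => vs w y j) z := by
  have h1 : ContinuousAt (fun y => ((ths w y j : ℝ) : ℂ) * I) z := (Complex.continuous_ofReal.continuousAt.comp (ths_cont h j)).mul continuousAt_const
  have h2 : ContinuousAt (fun y => exp (((ths w y j : ℝ) : ℂ) * I)) z := Complex.continuous_exp.continuousAt.comp h1
  have hne : Xs w z j ≠ 0 := by
    intro h0
    have := Xs_re h j
    rw [h0] at this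
    simp at this
  exact (cs_cnt hz j).sub ((continuousAt_const.mul h2).div (Xs_cnt w z j) hne)

/-- the sum of the chords: `∑ 2 sin θ/X = 1`. -/
theorem sum_sin {w : List Bool} {z : ℂ} (hz : NZ w z) (h : WTop (Lf w z) (Nf w z) (Rf w z)) :
    2 * Real.sin (thL (Lf w z) (Nf w z) (Rf w z)) / Lf w z + 2 * Real.sin (thL (Nf w z) (Rf w z) (Lf w z)) / Nf w z +
      2 * Real.sin (thL (Rf w z) (Lf w z) (Nf w z)) / Rf w z = 1 := by
  have h0 := vs_chord hz h 3
  have h1 := vs_chord hz h 1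
  have h2 := vs_chord hz h 2
  have hp := (CHS hz h).perv 0
  have x0 := Xs_0 w z 1
  have x1 := Xs_1 w z 0
  have x2 := Xs_2 w z 0
  have t0 := ths_0 w z 1
  have t1 := ths_1 w z 0
  have t2 := ths_2 w z 0
  norm_num at h0 h1 h2 hp x0 x1 x2 t0 t1 t2
  rw [x0, t0] at h0
  rw [x1, t1] at h1
  rw [x2, t2] at h2
  rw [Complex.ofReal_sin, Complex.ofReal_sin, Complex.ofReal_sin]
  linear_combination -h0 - h1 - h2 + hp

/-- two real combinations of independent complex numbers. -/
theorem indep {A B : ℂ} (hAB : (A * conj B).im ≠ 0) {a b a' b' : ℝ} (h : a * A + b * B = a' * A + b' * B) : a = a' ∧ b = b' := by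
  have h1 : ((a - a' : ℝ) : ℂ) * A + ((b - b' : ℝ) : ℂ) * B = 0 := by push_cast; linear_combination h
  have h2 : (((a - a' : ℝ) : ℂ) * A * conj B + ((b - b' : ℝ) : ℂ) * (B * conj B)).im = 0 := by
    have : ((a - a' : ℝ) : ℂ) * A * conj B + ((b - b' : ℝ) : ℂ) * (B * conj B) = (((a - a' : ℝ) : ℂ) * A + ((b - b' : ℝ) : ℂ) * B) * conj B := by ring
    rw [this, h1, zero_mul, zero_im]
  have h3 : (((a - a' : ℝ) : ℂ) * A * conj A + ((b - b' : ℝ) : ℂ) * (B * conj A)).im = 0 := by
    have : ((a - a' : ℝ) : ℂ) * A * conj A + ((b - b' : ℝ) : ℂ) * (B * conj A) = (((a - a' : ℝ) : ℂ) * A + ((b - b' : ℝ) : ℂ) * B) * conj A := by ring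
    rw [this, h1, zero_mul, zero_im]
  rw [mul_assoc, Complex.add_im, Complex.im_ofReal_mul, Complex.im_ofReal_mul, Complex.mul_conj, Complex.ofReal_im, mul_zero, add_zero] at h2
  rw [mul_assoc, Complex.add_im, Complex.im_ofReal_mul, Complex.im_ofReal_mul, Complex.mul_conj, Complex.ofReal_im, mul_zero, zero_add] at h3
  have h4 : (B * conj A).im = -(A * conj B).im := by
    simp only [mul_im, conj_re, conj_im]; ring
  rw [h4] at h3
  constructor
  · have := (mul_eq_zero.1 h2).resolve_right hAB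
    linarith
  · have := (mul_eq_zero.1 h3).resolve_right (neg_ne_zero.2 hAB)
    linarith

end Pool.Agent.M4
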