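import Mathlib

/-!
# Project M4 (MP_1b8d20_an, S03975), block V: chains of circles in theta form (pure part; helper8)

A chain: letters `X k`, half angles `th k ∈ [0, π/2)`, centres `c k` (`k : ℤ`, period three). The visible arc of the circle `k` is
`G D k φ = c k - i e^(iφ)/X k`, `|φ| ≤ th k`; the involution `P_k` is `φ ↦ -φ` on it. `EE D ω` = the region below the chain,
`ω` = a direction (`ω y` has real part = horizontal coordinate).
-/

set_option autoImplicit false

open Complex Metric Set Filter Topology ComplexConjugate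

noncomputable section

namespace M4V

/-- a chain of circles in theta form. -/
structure Cth where
  X : ℤ → ℂ
  th : ℤ → ℝ
  c : ℤ → ℂ
  X0 : ∀ k, X k ≠ 0
  Xp : ∀ k, X (k + 3) = X k
  tp : ∀ k, th (k + 3) = th k
  cp : ∀ k, c (k + 3) = c k + 1
  t0 : ∀ k, 0 ≤ th k
  t1 : ∀ k, th k < Real.pi / 2
  two : ∀ k, th k = 0 → 0 < th (k + 1) ∧ 0 < th (k + 2)
  rl : ∀ k, c (k + 1) - c k = X (k + 2) / (X k * X (k + 1))
  st : ∀ k, X (k + 2) = I * (exp (-(th (k + 1) * I)) * X k - exp (th k * I) * X (k + 1))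

/-- a point of the circle `k`. -/
def G (D : Cth) (k : ℤ) (φ : ℝ) : ℂ := D.c k - I * exp (φ * I) / D.X k

/-- the corner between the circles `k` and `k + 1`. -/
def vx (D : Cth) (k : ℤ) : ℂ := G D k (D.th k)

/-- the visible arcs. -/
def Gam (D : Cth) : Set ℂ := {y | ∃ (k : ℤ) (φ : ℝ), |φ| ≤ D.th k ∧ y = G D k φ}

/-- the circle `k` passes through `y` with its visible arc. -/
def Idx (D : Cth) (y : ℂ) (k : ℤ) : Prop := ∃ φ : ℝ, |φ| ≤ D.th k ∧ y = G D k φ

/-- good directions. -/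
def Ok (D : Cth) (ω : ℂ) : Prop := ∀ k, 0 < (exp (D.th k * I) * ω / D.X k).re ∧ 0 < (exp (-(D.th k * I)) * ω / D.X k).re

/-- the closed region below the chain. -/
def EE (D : Cth) (ω : ℂ) : Set ℂ := {y | ∃ (k : ℤ) (φ t : ℝ), |φ| ≤ D.th k ∧ 0 ≤ t ∧ y = G D k φ - I * t * conj ω}

/-- convergence of chains. -/
def CT {ι : Type*} (l : Filter ι) (Dn : ι → Cth) (D : Cth) : Prop :=
  ∀ k, Tendsto (fun i => (Dn i).X k) l (𝓝 (D.X k)) ∧ Tendsto (fun i => (Dn i).th k) l (𝓝 (D.th k)) ∧ Tendsto (fun i => (Dn i).c k) l (𝓝 (D.c k))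

/-- `|X (x - c)|` (the reciprocal square root of the derivative of the involution). -/
def de (X c x : ℂ) : ℝ := ‖X * (x - c)‖

/-! ## Periodicity -/

theorem Cth.Xm (D : Cth) (k m : ℤ) : D.X (k + 3 * m) = D.X k := by
  induction m using Int.induction_on with
  | zero => simp
  | succ m ih =>
    have e : k + 3 * ((m : ℤ) + 1) = (k + 3 * m) + 3 := by ring
    rw [e, D.Xp, ih]
  | pred m ih =>
    have e : k + 3 * (-(m : ℤ)) = (k + 3 * (-(m : ℤ) - 1)) + 3 := by ring
    rw [← ih, e, D.Xp]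

theorem Cth.tm (D : Cth) (k m : ℤ) : D.th (k + 3 * m) = D.th k := by
  induction m using Int.induction_on with
  | zero => simp
  | succ m ih =>
    have e : k + 3 * ((m : ℤ) + 1) = (k + 3 * m) + 3 := by ring
    rw [e, D.tp, ih]
  | pred m ih =>
    have e : k + 3 * (-(m : ℤ)) = (k + 3 * (-(m : ℤ) - 1)) + 3 := by ring
    rw [← ih, e, D.tp]

theorem Cth.cm (D : Cth) (k m : ℤ) : D.c (k + 3 * m) = D.c k + m := by
  induction m using Int.induction_on with
  | zero => simp
  | succ m ih =>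
    have e : k + 3 * ((m : ℤ) + 1) = (k + 3 * m) + 3 := by ring
    rw [e, D.cp, ih]; push_cast; ring
  | pred m ih =>
    have e : k + 3 * (-(m : ℤ)) = (k + 3 * (-(m : ℤ) - 1)) + 3 := by ring
    rw [e, D.cp] at ih
    have : D.c (k + 3 * (-(m : ℤ) - 1)) = D.c k + ((-(m : ℤ) : ℤ) : ℂ) - 1 := by rw [← ih]; ring
    rw [this]; push_cast; ring

theorem G_per (D : Cth) (k m : ℤ) (φ : ℝ) : G D (k + 3 * m) φ = G D k φ + m := by
  unfold G
  rw [D.cm, D.Xm]; ring

theorem G_per1 (D : Cth) (k : ℤ) (φ : ℝ) : G D (k + 3) φ = G D k φ + 1 := by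
  have := G_per D k 1 φ
  simpa using this

theorem vx_per (D : Cth) (k m : ℤ) : vx D (k + 3 * m) = vx D k + m := by
  unfold vx
  rw [D.tm, G_per]

/-- the two descriptions of a corner. -/
theorem vx_eq (D : Cth) (k : ℤ) : vx D k = G D (k + 1) (-(D.th (k + 1))) := by
  have h1 := D.rl k
  have h2 := D.st k
  have hX := D.X0 k
  have hX1 := D.X0 (k + 1)
  unfold vx G
  rw [h2] at h1
  have h3 : D.c (k + 1) = D.c k + I * (exp (-(D.th (k + 1) * I)) * D.X k - exp (D.th k * I) * D.X (k + 1)) / (D.X k * D.X (k + 1)) := by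
    linear_combination h1
  rw [h3]
  have e : ((-(D.th (k + 1)) : ℝ) : ℂ) * I = -(D.th (k + 1) * I) := by push_cast; ring
  rw [e]
  field_simp
  ring

theorem vx_pred (D : Cth) (k : ℤ) : vx D (k - 1) = G D k (-(D.th k)) := by
  have := vx_eq D (k - 1)
  rw [sub_add_cancel] at this
  exact this

/-- difference of two points of one circle. -/
theorem G_sub (D : Cth) (k : ℤ) (φ ψ : ℝ) : G D k ψ - G D k φ = 2 * Real.sin ((ψ - φ) / 2) * (exp (((φ + ψ) / 2 : ℝ) * I) / D.X k) := by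
  have hX := D.X0 k
  have e1 : exp ((ψ : ℂ) * I) = exp (((φ + ψ) / 2 : ℝ) * I) * exp (((ψ - φ) / 2 : ℝ) * I) := by
    rw [← Complex.exp_add]; congr 1; push_cast; ring
  have e2 : exp ((φ : ℂ) * I) = exp (((φ + ψ) / 2 : ℝ) * I) * exp (-(((ψ - φ) / 2 : ℝ) * I)) := by
    rw [← Complex.exp_add]; congr 1; push_cast; ring
  have e3 : exp ((((ψ - φ) / 2 : ℝ) : ℂ) * I) - exp (-((((ψ - φ) / 2 : ℝ) : ℂ) * I)) = 2 * Real.sin ((ψ - φ) / 2) * I := by
    rw [Complex.ofReal_sin, Complex.sin]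
    have : (I : ℂ) * I = -1 := I_mul_I
    have e4 : -((((ψ - φ) / 2 : ℝ) : ℂ)) * I = -((((ψ - φ) / 2 : ℝ) : ℂ) * I) := by ring
    rw [e4]
    linear_combination (-exp (-((((ψ - φ) / 2 : ℝ) : ℂ) * I)) + exp ((((ψ - φ) / 2 : ℝ) : ℂ) * I)) * this
  unfold G
  rw [e1, e2]
  have : (I : ℂ) * I = -1 := I_mul_I
  generalize exp ((((φ + ψ) / 2 : ℝ) : ℂ) * I) = A at *
  generalize exp ((((ψ - φ) / 2 : ℝ) : ℂ) * I) = B at *
  generalize exp (-((((ψ - φ) / 2 : ℝ) : ℂ) * I)) = C at *
  generalize Real.sin ((ψ - φ) / 2) = S at *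
  field_simp
  linear_combination (-I * A) * e3 + (-2 * (S : ℂ) * A) * this

/-- the chord of a visible arc. -/
theorem vx_chord (D : Cth) (k : ℤ) : vx D k - vx D (k - 1) = 2 * Real.sin (D.th k) / D.X k := by
  rw [vx_pred]
  unfold vx
  rw [G_sub]
  have e1 : (D.th k - -D.th k) / 2 = D.th k := by ring
  have e2 : (-D.th k + D.th k) / 2 = 0 := by ring
  rw [e1, e2]
  simp
  ring

/-! ## Good directions -/

theorem Ok.all {D : Cth} {ω : ℂ} (h : Ok D ω) (k : ℤ) {φ : ℝ} (hφ : |φ| ≤ D.th k) : 0 < (exp (φ * I) * ω / D.X k).re := by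
  obtain ⟨h1, h2⟩ := h k
  rcases (D.t0 k).eq_or_lt with h0 | h0
  · rw [← h0] at hφ h1
    have : φ = 0 := abs_nonpos_iff.1 hφ
    rw [this]
    exact h1
  · have ht := D.t1 k
    set θ := D.th k with hθ
    obtain ⟨h3, h4⟩ := abs_le.1 hφ
    have hs : 0 < Real.sin (2 * θ) := Real.sin_pos_of_pos_of_lt_pi (by linarith) (by linarith)
    have hs1 : 0 ≤ Real.sin (θ + φ) := Real.sin_nonneg_of_nonneg_of_le_pi (by linarith) (by linarith)
    have hs2 : 0 ≤ Real.sin (θ - φ) := Real.sin_nonneg_of_nonneg_of_le_pi (by linarith) (by linarith)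
    have key : ((Real.sin (2 * θ) : ℝ) : ℂ) * exp (φ * I) = ((Real.sin (θ + φ) : ℝ) : ℂ) * exp (θ * I) + ((Real.sin (θ - φ) : ℝ) : ℂ) * exp (-(θ * I)) := by
      have e1 : exp (-((θ : ℂ) * I)) = Real.cos θ - Real.sin θ * I := by
        rw [← neg_mul, Complex.exp_mul_I, Complex.cos_neg, Complex.sin_neg, ofReal_cos, ofReal_sin]; ring
      have e2 : exp ((θ : ℂ) * I) = Real.cos θ + Real.sin θ * I := by
        rw [Complex.exp_mul_I, ofReal_cos, ofReal_sin]
      have e3 : exp ((φ : ℂ) * I) = Real.cos φ + Real.sin φ * I := by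
        rw [Complex.exp_mul_I, ofReal_cos, ofReal_sin]
      rw [e1, e2, e3, Real.sin_two_mul, Real.sin_add, Real.sin_sub]
      push_cast
      ring
    have e4 : Real.sin (2 * θ) * (exp (φ * I) * ω / D.X k).re = Real.sin (θ + φ) * (exp (θ * I) * ω / D.X k).re + Real.sin (θ - φ) * (exp (-(θ * I)) * ω / D.X k).re := by
      have e5 : ((Real.sin (2 * θ) : ℝ) : ℂ) * (exp (φ * I) * ω / D.X k) = ((Real.sin (θ + φ) : ℝ) : ℂ) * (exp (θ * I) * ω / D.X k) + ((Real.sin (θ - φ) : ℝ) : ℂ) * (exp (-(θ * I)) * ω / D.X k) := by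
        linear_combination (ω / D.X k) * key
      have e6 := congrArg Complex.re e5
      rw [Complex.add_re, Complex.re_ofReal_mul, Complex.re_ofReal_mul, Complex.re_ofReal_mul] at e6
      exact e6
    have h5 : 0 < Real.sin (θ + φ) ∨ 0 < Real.sin (θ - φ) := by
      rcases lt_or_ge φ 0 with h6 | h6
      · exact Or.inr (Real.sin_pos_of_pos_of_lt_pi (by linarith) (by linarith))
      · exact Or.inl (Real.sin_pos_of_pos_of_lt_pi (by linarith) (by linarith))
    have h6 : 0 < Real.sin (2 * θ) * (exp (φ * I) * ω / D.X k).re := by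
      rw [e4]
      rcases h5 with h5 | h5
      · have := mul_pos h5 h1
        have := mul_nonneg hs2 h2.le
        linarith
      · have := mul_pos h5 h2
        have := mul_nonneg hs1 h1.le
        linarith
    exact (mul_pos_iff_of_pos_left hs).1 h6

theorem Ok.zero {D : Cth} {ω : ℂ} (h : Ok D ω) (k : ℤ) : 0 < (ω / D.X k).re := by
  have := h.all k (φ := 0) (by rw [abs_zero]; exact D.t0 k)
  simpa using this

/-- the horizontal coordinate. -/
def sg (ω y : ℂ) : ℝ := (ω * y).re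

theorem sg_add (ω x y : ℂ) : sg ω (x + y) = sg ω x + sg ω y := by unfold sg; rw [mul_add, add_re]

theorem sg_sub (ω x y : ℂ) : sg ω (x - y) = sg ω x - sg ω y := by unfold sg; rw [mul_sub, sub_re]

theorem sg_d (ω : ℂ) (t : ℝ) : sg ω (I * t * conj ω) = 0 := by
  unfold sg
  simp only [mul_re, mul_im, I_re, I_im, ofReal_re, ofReal_im, conj_re, conj_im]
  ring

/-- strict monotonicity on an arc. -/
theorem sg_mono {D : Cth} {ω : ℂ} (h : Ok D ω) (k : ℤ) {φ ψ : ℝ} (hφ : |φ| ≤ D.th k) (hψ : |ψ| ≤ D.th k) (hlt : φ < ψ) :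
    sg ω (G D k φ) < sg ω (G D k ψ) := by
  have h1 : 0 < sg ω (G D k ψ - G D k φ) := by
    rw [G_sub]
    obtain ⟨a1, a2⟩ := abs_le.1 hφ
    obtain ⟨b1, b2⟩ := abs_le.1 hψ
    have ht := D.t1 k
    have hs : 0 < Real.sin ((ψ - φ) / 2) := Real.sin_pos_of_pos_of_lt_pi (by linarith) (by linarith [Real.pi_pos])
    have h2 := h.all k (φ := (φ + ψ) / 2) (abs_le.2 ⟨by linarith, by linarith⟩)
    have e : ω * (2 * (Real.sin ((ψ - φ) / 2) : ℂ) * (exp (((φ + ψ) / 2 : ℝ) * I) / D.X k)) = ((2 * Real.sin ((ψ - φ) / 2) : ℝ) : ℂ) * (exp (((φ + ψ) / 2 : ℝ) * I) * ω / D.X k) := by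
      push_cast; ring
    unfold sg
    rw [e, Complex.re_ofReal_mul]
    positivity
  rw [sg_sub] at h1
  linarith

theorem sg_chord {D : Cth} {ω : ℂ} (h : Ok D ω) (k : ℤ) : sg ω (vx D (k - 1)) ≤ sg ω (vx D k) ∧ (0 < D.th k → sg ω (vx D (k - 1)) < sg ω (vx D k)) := by
  have h1 : sg ω (vx D k) - sg ω (vx D (k - 1)) = 2 * Real.sin (D.th k) * (ω / D.X k).re := by
    rw [← sg_sub, vx_chord]
    unfold sg
    have e : ω * (2 * (Real.sin (D.th k) : ℂ) / D.X k) = ((2 * Real.sin (D.th k) : ℝ) : ℂ) * (ω / D.X k) := by push_cast; ring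
    rw [e, Complex.re_ofReal_mul]
  have h2 := h.zero k
  have h3 : 0 ≤ Real.sin (D.th k) := Real.sin_nonneg_of_nonneg_of_le_pi (D.t0 k) (by linarith [D.t1 k, Real.pi_pos])
  refine ⟨?_, fun h4 => ?_⟩
  · have : 0 ≤ 2 * Real.sin (D.th k) * (ω / D.X k).re := by positivity
    linarith
  · have h5 : 0 < Real.sin (D.th k) := Real.sin_pos_of_pos_of_lt_pi h4 (by linarith [D.t1 k, Real.pi_pos])
    have : 0 < 2 * Real.sin (D.th k) * (ω / D.X k).re := by positivity
    linarith

theorem sg_vx_mono {D : Cth} {ω : ℂ} (h : Ok D ω) : Monotone fun k => sg ω (vx D k) := by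
  apply monotone_int_of_le_succ
  intro k
  have := (sg_chord h (k + 1)).1
  rw [add_sub_cancel_right] at this
  exact this

theorem Ok.repos {D : Cth} {ω : ℂ} (h : Ok D ω) : 0 < ω.re := by
  have h1 : sg ω (vx D 3) = sg ω (vx D 0) + ω.re := by
    have := vx_per D 0 1
    norm_num at this
    rw [this, sg_add]
    unfold sg
    rw [mul_one]
  have c1 := sg_chord h 1
  have c2 := sg_chord h 2
  have c3 := sg_chord h 3
  norm_num at c1 c2 c3
  rcases (D.t0 1).eq_or_lt with h0 | h0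
  · have h2 := (D.two 1 h0.symm).1
    norm_num at h2
    have := c2.2 h2
    linarith [c1.1, c3.1]
  · have := c1.2 h0
    linarith [c2.1, c3.1]

/-- SUR: every vertical line meets the chain. -/
theorem SUR {D : Cth} {ω : ℂ} (h : Ok D ω) (y : ℂ) : ∃ (k : ℤ) (φ t : ℝ), |φ| ≤ D.th k ∧ y = G D k φ - I * t * conj ω := by
  have hω := h.repos
  have hper : ∀ k m : ℤ, sg ω (vx D (k + 3 * m)) = sg ω (vx D k) + m * ω.re := by
    intro k m
    rw [vx_per, sg_add]
    unfold sg
    rw [mul_comm ω ((m : ℤ) : ℂ), ← Complex.ofReal_intCast, Complex.re_ofReal_mul]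
  -- least `k` with `sg y ≤ sg (vx k)`
  obtain ⟨m1, hm1⟩ := exists_int_gt ((sg ω y - sg ω (vx D 0)) / ω.re)
  obtain ⟨m2, hm2⟩ := exists_int_lt ((sg ω y - sg ω (vx D 0)) / ω.re)
  have hex : ∃ k : ℤ, sg ω y ≤ sg ω (vx D k) := by
    refine ⟨0 + 3 * m1, ?_⟩
    rw [hper]
    rw [div_lt_iff₀ hω] at hm1
    linarith
  have hbd : ∃ b : ℤ, ∀ k : ℤ, sg ω y ≤ sg ω (vx D k) → b ≤ k := by
    refine ⟨0 + 3 * m2, fun k hk => ?_⟩
    by_contra hcon
    push Not at hcon
    have h1 := sg_vx_mono h hcon.le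
    simp only at h1
    rw [hper] at h1
    rw [lt_div_iff₀ hω] at hm2
    linarith
  obtain ⟨k, hk, hmin⟩ := Int.exists_least_of_bdd hbd hex
  have hk' : sg ω (vx D (k - 1)) ≤ sg ω y := by
    by_contra hcon
    push Not at hcon
    have := hmin (k - 1) hcon.le
    omega
  have hcont : ContinuousOn (fun φ : ℝ => sg ω (G D k φ)) (Icc (-(D.th k)) (D.th k)) := by
    apply Continuous.continuousOn
    unfold sg G
    fun_prop
  have hle : -(D.th k) ≤ D.th k := by linarith [D.t0 k]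
  have hiv := intermediate_value_Icc hle hcont
  have hmem : sg ω y ∈ Icc (sg ω (G D k (-(D.th k)))) (sg ω (G D k (D.th k))) := by
    rw [← vx_pred]
    exact ⟨hk', hk⟩
  obtain ⟨φ, hφ, hφe⟩ := hiv hmem
  simp only at hφe
  have hω0 : ω ≠ 0 := by rintro rfl; simp at hω
  refine ⟨k, φ, (ω * (G D k φ - y)).im / normSq ω, abs_le.2 hφ, ?_⟩
  have hre : (ω * (G D k φ - y)).re = 0 := by
    have : sg ω (G D k φ - y) = 0 := by rw [sg_sub, hφe, sub_self]
    exact this
  have hns : normSq ω ≠ 0 := (normSq_pos.2 hω0).ne'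
  have e1 : ω * (G D k φ - y) = I * ((ω * (G D k φ - y)).im : ℝ) := by
    apply Complex.ext
    · rw [hre]; simp
    · simp
  have e2 : conj ω * ω = ((normSq ω : ℝ) : ℂ) := by rw [mul_comm, Complex.mul_conj]
  have hnc : ((normSq ω : ℝ) : ℂ) ≠ 0 := by exact_mod_cast hns
  have e3 : G D k φ - y = I * (((ω * (G D k φ - y)).im / normSq ω : ℝ) : ℂ) * conj ω := by
    have e4 : ((normSq ω : ℝ) : ℂ) * (G D k φ - y) = conj ω * (I * ((ω * (G D k φ - y)).im : ℝ)) := by
      rw [← e1, ← e2]; ring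
    generalize (ω * (G D k φ - y)).im = v at *
    push_cast
    field_simp
    linear_combination e4
  rw [← e3]
  ring

/-- UNI: uniqueness. -/
theorem UNI {D : Cth} {ω : ℂ} (h : Ok D ω) {k l : ℤ} {φ ψ s t : ℝ} (hφ : |φ| ≤ D.th k) (hψ : |ψ| ≤ D.th l)
    (he : G D k φ - I * s * conj ω = G D l ψ - I * t * conj ω) : s = t ∧ G D k φ = G D l ψ := by
  have hω0 : ω ≠ 0 := by rintro rfl; have := h.repos; simp at this
  have hsg : sg ω (G D k φ) = sg ω (G D l ψ) := by
    have := congrArg (sg ω) he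
    rw [sg_sub, sg_sub, sg_d, sg_d] at this
    linarith
  have key : ∀ {k l : ℤ} {φ ψ : ℝ}, |φ| ≤ D.th k → |ψ| ≤ D.th l → k ≤ l → sg ω (G D k φ) = sg ω (G D l ψ) → G D k φ = G D l ψ := by
    intro k l φ ψ hφ hψ hkl hsg
    rcases hkl.eq_or_lt with rfl | hlt
    · rcases lt_trichotomy φ ψ with h1 | h1 | h1
      · exact absurd hsg (sg_mono h k hφ hψ h1).ne
      · rw [h1]
      · exact absurd hsg (sg_mono h k hψ hφ h1).ne'
    · have hk1 : sg ω (G D k φ) ≤ sg ω (vx D k) := by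
        rcases (le_abs_self φ |>.trans hφ).eq_or_lt with h1 | h1
        · rw [h1]; exact le_rfl
        · exact (sg_mono h k hφ (by rw [abs_of_nonneg (D.t0 k)]) h1).le
      have hl1 : sg ω (vx D (l - 1)) ≤ sg ω (G D l ψ) := by
        rw [vx_pred]
        rcases (neg_le_of_abs_le hψ).eq_or_lt with h1 | h1
        · rw [h1]
        · exact (sg_mono h l (by rw [abs_neg, abs_of_nonneg (D.t0 l)]) hψ h1).le
      have hm := sg_vx_mono h (show k ≤ l - 1 by omega)
      simp only at hm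
      -- equalities
      have e1 : G D k φ = vx D k := by
        rcases (le_abs_self φ |>.trans hφ).eq_or_lt with h1 | h1
        · rw [h1]; rfl
        · have := sg_mono h k hφ (by rw [abs_of_nonneg (D.t0 k)] : |D.th k| ≤ D.th k) h1
          change sg ω (G D k φ) < sg ω (vx D k) at this
          linarith
      have e2 : G D l ψ = vx D (l - 1) := by
        rw [vx_pred]
        rcases (neg_le_of_abs_le hψ).eq_or_lt with h1 | h1
        · rw [← h1]
        · have := sg_mono h l (by rw [abs_neg, abs_of_nonneg (D.t0 l)] : |-(D.th l)| ≤ D.th l) hψ h1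
          rw [vx_pred] at hm hl1
          linarith
      have e3 : sg ω (vx D k) = sg ω (vx D (l - 1)) := by
        rw [e1, e2] at hsg; exact hsg
      -- chords between `k` and `l - 1` vanish
      have e4 : ∀ n : ℕ, k + n ≤ l - 1 → vx D (k + n) = vx D k := by
        intro n
        induction n with
        | zero => intro _; simp
        | succ n ih =>
          intro hn
          push_cast at hn ⊢
          have ih' := ih (by omega)
          have h5 : sg ω (vx D (k + (n + 1))) ≤ sg ω (vx D (l - 1)) := sg_vx_mono h hn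
          have h6 : sg ω (vx D k) ≤ sg ω (vx D (k + (n + 1))) := sg_vx_mono h (show k ≤ k + ((n : ℤ) + 1) by omega)
          have h7 : sg ω (vx D (k + (n + 1))) = sg ω (vx D (k + n)) := by rw [ih']; linarith
          have hc := sg_chord h (k + (n + 1))
          have e5 : k + ((n : ℤ) + 1) - 1 = k + n := by ring
          rw [e5] at hc
          have h8 : D.th (k + (n + 1)) = 0 := by
            by_contra h9
            have := hc.2 (lt_of_le_of_ne (D.t0 _) (Ne.symm h9))
            linarith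
          have h9 := vx_chord D (k + (n + 1))
          rw [e5, h8] at h9
          simp at h9
          rw [sub_eq_zero.1 h9, ih']
      have e6 : vx D (l - 1) = vx D k := by
        have := e4 (l - 1 - k).toNat (by
          rw [Int.toNat_of_nonneg (by omega)]; omega)
        rw [Int.toNat_of_nonneg (by omega)] at this
        have e7 : k + (l - 1 - k) = l - 1 := by ring
        rw [e7] at this
        exact this
      rw [e1, e2, e6]
  have hG : G D k φ = G D l ψ := by
    rcases le_total k l with h1 | h1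
    · exact key hφ hψ h1 hsg
    · exact (key hψ hφ h1 hsg.symm).symm
  refine ⟨?_, hG⟩
  rw [hG] at he
  have h1 : I * (s : ℂ) * conj ω = I * t * conj ω := by linear_combination -he
  have h2 : (s : ℂ) = t := by
    have h3 : I * conj ω ≠ 0 := mul_ne_zero I_ne_zero ((map_ne_zero _).2 hω0)
    apply mul_left_cancel₀ h3
    linear_combination h1
  exact_mod_cast h2

end M4V
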