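import Pool.Agent.helper8.M4V.Vs

/-!
# Project M4 (MP_1b8d20_an, S03975), block V: trigonometry of a weak top triple (helper8)
-/

set_option autoImplicit false

namespace Pool.Agent.M4

open Complex ComplexConjugate Topology Filter
open M4J (thL aA DD)

theorem DD_cyc (l n r : ℝ) : DD n r l = DD l n r := by unfold M4J.DD; ring

/-- `exp (i thL)`. -/
theorem exp_thL {X Y Z : ℂ} (hX : X ≠ 0) (hY : Y ≠ 0) (hZ : Z ≠ 0) (h1 : ‖Y‖ < ‖X‖ + ‖Z‖) (h2 : ‖X‖ < ‖Y‖ + ‖Z‖) (h3 : ‖Z‖ < ‖X‖ + ‖Y‖) :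
    exp (thL X Y Z * I) = I * (((‖Y‖ ^ 2 + ‖Z‖ ^ 2 - ‖X‖ ^ 2 : ℝ) : ℂ) - I * (Real.sqrt (DD ‖X‖ ‖Y‖ ‖Z‖) : ℝ)) * (conj Y * Z) / (2 * (‖Y‖ : ℂ) ^ 2 * (‖Z‖ : ℂ) ^ 2) := by
  have hx : 0 < ‖X‖ := norm_pos_iff.2 hX
  have hy : 0 < ‖Y‖ := norm_pos_iff.2 hY
  have hz : 0 < ‖Z‖ := norm_pos_iff.2 hZ
  have hD : 0 < DD ‖X‖ ‖Y‖ ‖Z‖ := M4J.DD_pos hx h1 h2 h3
  set x := (‖Y‖ ^ 2 + ‖Z‖ ^ 2 - ‖X‖ ^ 2) / (2 * ‖Y‖ * ‖Z‖) with hxd
  set S := Real.sqrt (DD ‖X‖ ‖Y‖ ‖Z‖) with hS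
  have hS2 : S ^ 2 = 4 * ‖Y‖ ^ 2 * ‖Z‖ ^ 2 - (‖Y‖ ^ 2 + ‖Z‖ ^ 2 - ‖X‖ ^ 2) ^ 2 := by rw [hS, Real.sq_sqrt hD.le]; rfl
  have hS0 : 0 < S := Real.sqrt_pos.2 hD
  have hx2 : 1 - x ^ 2 = (S / (2 * ‖Y‖ * ‖Z‖)) ^ 2 := by
    rw [hxd, div_pow, div_pow, hS2]
    field_simp
    ring
  have hpos : 0 < 1 - x ^ 2 := by rw [hx2]; positivity
  have hxl : -1 ≤ x := by nlinarith
  have hxu : x ≤ 1 := by nlinarith
  have hsq : Real.sqrt (1 - x ^ 2) = S / (2 * ‖Y‖ * ‖Z‖) := by rw [hx2, Real.sqrt_sq (by positivity)]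
  have hcos : Real.cos (Real.arccos x) = x := Real.cos_arccos hxl hxu
  have hsin : Real.sin (Real.arccos x) = S / (2 * ‖Y‖ * ‖Z‖) := by rw [Real.sin_arccos, hsq]
  have e0 : (thL X Y Z : ℂ) * I = (Real.pi / 2 : ℝ) * I + (-(Real.arccos x) : ℝ) * I + (-(arg (Y / Z)) : ℝ) * I := by
    have : thL X Y Z = Real.pi / 2 - Real.arccos x - arg (Y / Z) := rfl
    rw [this]; push_cast; ring
  have e1 : exp (((Real.pi / 2 : ℝ) : ℂ) * I) = I := by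
    rw [Complex.exp_mul_I, ← Complex.ofReal_cos, ← Complex.ofReal_sin, Real.cos_pi_div_two, Real.sin_pi_div_two]; simp
  have e2 : exp (((-(Real.arccos x) : ℝ) : ℂ) * I) = (((‖Y‖ ^ 2 + ‖Z‖ ^ 2 - ‖X‖ ^ 2 : ℝ) : ℂ) - I * (S : ℝ)) / (2 * (‖Y‖ : ℂ) * (‖Z‖ : ℂ)) := by
    rw [Complex.exp_mul_I, ← Complex.ofReal_cos, ← Complex.ofReal_sin, Real.cos_neg, Real.sin_neg, hcos, hsin, hxd]
    push_cast
    field_simp
    ring
  have hYZ : Y / Z ≠ 0 := div_ne_zero hY hZ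
  have e3 : exp (((-(arg (Y / Z)) : ℝ) : ℂ) * I) = conj Y * Z / ((‖Y‖ : ℂ) * (‖Z‖ : ℂ)) := by
    have h4 : (‖Y / Z‖ : ℂ) * exp (arg (Y / Z) * I) = Y / Z := Complex.norm_mul_exp_arg_mul_I _
    have h5 : exp (((-(arg (Y / Z)) : ℝ) : ℂ) * I) = conj (exp (arg (Y / Z) * I)) := by
      rw [← Complex.exp_conj, map_mul, Complex.conj_ofReal, conj_I]; push_cast; ring_nf
    have h6 := congrArg (starRingEnd ℂ) h4
    rw [map_mul, Complex.conj_ofReal] at h6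
    rw [h5]
    have hyc : (‖Y‖ : ℂ) ≠ 0 := by exact_mod_cast hy.ne'
    have hzc : (‖Z‖ : ℂ) ≠ 0 := by exact_mod_cast hz.ne'
    have hzz : conj Z * Z = (‖Z‖ : ℂ) ^ 2 := by rw [mul_comm, Complex.mul_conj, Complex.normSq_eq_norm_sq]; push_cast; rfl
    have hcz : conj Z ≠ 0 := (map_ne_zero _).2 hZ
    rw [norm_div, map_div₀] at h6
    push_cast at h6
    generalize conj (exp (arg (Y / Z) * I)) = E at h6
    have h7 : E = conj Y * (‖Z‖ : ℂ) / (conj Z * (‖Y‖ : ℂ)) := by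
      field_simp at h6 ⊢
      linear_combination h6
    rw [h7, div_eq_div_iff (mul_ne_zero hcz hyc) (mul_ne_zero hyc hzc)]
    linear_combination (-(conj Y) * (‖Y‖ : ℂ)) * hzz
  rw [e0, Complex.exp_add, Complex.exp_add, e1, e2, e3]
  have hyc : (‖Y‖ : ℂ) ≠ 0 := by exact_mod_cast hy.ne'
  have hzc : (‖Z‖ : ℂ) ≠ 0 := by exact_mod_cast hz.ne'
  field_simp

/-- the star relation. -/
theorem STARC {X Y Z : ℂ} (hX : X ≠ 0) (hY : Y ≠ 0) (hZ : Z ≠ 0) (h1 : ‖Y‖ < ‖X‖ + ‖Z‖) (h2 : ‖X‖ < ‖Y‖ + ‖Z‖) (h3 : ‖Z‖ < ‖X‖ + ‖Y‖) :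
    Z = I * (exp (-(thL Y Z X * I)) * X - exp (thL X Y Z * I) * Y) := by
  have e1 := exp_thL hX hY hZ h1 h2 h3
  have e2 := exp_thL hY hZ hX (by linarith) (by linarith) (by linarith)
  rw [DD_cyc] at e2
  have hx : (‖X‖ : ℂ) ≠ 0 := by exact_mod_cast norm_ne_zero_iff.2 hX
  have hy : (‖Y‖ : ℂ) ≠ 0 := by exact_mod_cast norm_ne_zero_iff.2 hY
  have hz : (‖Z‖ : ℂ) ≠ 0 := by exact_mod_cast norm_ne_zero_iff.2 hZ
  have hxx : conj X * X = (‖X‖ : ℂ) ^ 2 := by rw [mul_comm, Complex.mul_conj, Complex.normSq_eq_norm_sq]; push_cast; rfl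
  have hyy : conj Y * Y = (‖Y‖ : ℂ) ^ 2 := by rw [mul_comm, Complex.mul_conj, Complex.normSq_eq_norm_sq]; push_cast; rfl
  have e3 : exp (-(thL Y Z X * I)) = conj (exp (thL Y Z X * I)) := by
    rw [← Complex.exp_conj, map_mul, Complex.conj_ofReal, conj_I]; ring_nf
  have e4 : exp (-(thL Y Z X * I)) * X = -I * (((‖Z‖ ^ 2 + ‖X‖ ^ 2 - ‖Y‖ ^ 2 : ℝ) : ℂ) + I * (Real.sqrt (DD ‖X‖ ‖Y‖ ‖Z‖) : ℝ)) * Z / (2 * (‖Z‖ : ℂ) ^ 2) := by
    rw [e3, e2]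
    simp only [map_div₀, map_mul, map_sub, conj_I, Complex.conj_ofReal, Complex.conj_conj, map_pow, Complex.conj_ofNat]
    rw [div_mul_eq_mul_div, div_eq_div_iff (by simp [hz, hx]) (by simp [hz])]
    linear_combination (-I * (((‖Z‖ ^ 2 + ‖X‖ ^ 2 - ‖Y‖ ^ 2 : ℝ) : ℂ) + I * (Real.sqrt (DD ‖X‖ ‖Y‖ ‖Z‖) : ℝ)) * Z * (2 * (‖Z‖ : ℂ) ^ 2)) * hxx
  have e5 : exp (thL X Y Z * I) * Y = I * (((‖Y‖ ^ 2 + ‖Z‖ ^ 2 - ‖X‖ ^ 2 : ℝ) : ℂ) - I * (Real.sqrt (DD ‖X‖ ‖Y‖ ‖Z‖) : ℝ)) * Z / (2 * (‖Z‖ : ℂ) ^ 2) := by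
    rw [e1, div_mul_eq_mul_div, div_eq_div_iff (by simp [hz, hy]) (by simp [hz])]
    linear_combination (I * (((‖Y‖ ^ 2 + ‖Z‖ ^ 2 - ‖X‖ ^ 2 : ℝ) : ℂ) - I * (Real.sqrt (DD ‖X‖ ‖Y‖ ‖Z‖) : ℝ)) * Z * (2 * (‖Z‖ : ℂ) ^ 2)) * hyy
  rw [e4, e5]
  have hI : I * I = -1 := I_mul_I
  push_cast
  field_simp
  linear_combination (2 * (‖Z‖ : ℂ) ^ 2) * hI

/-- arguments in the right half plane. -/
theorem arg_div_pos {X Y : ℂ} (hX : 0 < X.re) (hY : 0 < Y.re) : arg (X / Y) = arg X - arg Y ∧ |arg X| < Real.pi / 2 ∧ |arg Y| < Real.pi / 2 := by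
  have h1 : |arg X| < Real.pi / 2 := Complex.abs_arg_lt_pi_div_two_iff.2 (Or.inl hX)
  have h2 : |arg Y| < Real.pi / 2 := Complex.abs_arg_lt_pi_div_two_iff.2 (Or.inl hY)
  refine ⟨?_, h1, h2⟩
  have hX0 : X ≠ 0 := by rintro rfl; simp at hX
  have hY0 : Y ≠ 0 := by rintro rfl; simp at hY
  have hx : 0 < ‖X‖ := norm_pos_iff.2 hX0
  have hy : 0 < ‖Y‖ := norm_pos_iff.2 hY0
  have h3 : (‖X‖ : ℂ) * exp (arg X * I) = X := Complex.norm_mul_exp_arg_mul_I _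
  have h4 : (‖Y‖ : ℂ) * exp (arg Y * I) = Y := Complex.norm_mul_exp_arg_mul_I _
  have h5 : X / Y = ((‖X‖ / ‖Y‖ : ℝ) : ℂ) * (Complex.cos ((arg X - arg Y : ℝ) : ℂ) + Complex.sin ((arg X - arg Y : ℝ) : ℂ) * I) := by
    rw [← Complex.exp_mul_I]
    have e : ((arg X - arg Y : ℝ) : ℂ) * I = arg X * I - arg Y * I := by push_cast; ring
    rw [e, Complex.exp_sub]
    push_cast
    rw [div_mul_div_comm, h3, h4]
  rw [h5]
  have h6 := abs_lt.1 h1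
  have h7 := abs_lt.1 h2
  exact Complex.arg_mul_cos_add_sin_mul_I (div_pos hx hy) ⟨by linarith, by linarith⟩

/-- the angles of a triangle. -/
theorem aA_sum {l n r : ℝ} (hl : 0 < l) (hn : 0 < n) (hr : 0 < r) (h1 : n < l + r) (h2 : l < n + r) (h3 : r < l + n) :
    aA l n r + aA n r l + aA r l n = Real.pi := by
  have hD : 0 < DD l n r := M4J.DD_pos hl h1 h2 h3
  set S := Real.sqrt (DD l n r) with hS
  have hS0 : 0 < S := Real.sqrt_pos.2 hD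
  have hS2 : S ^ 2 = 4 * n ^ 2 * r ^ 2 - (n ^ 2 + r ^ 2 - l ^ 2) ^ 2 := by rw [hS, Real.sq_sqrt hD.le]; rfl
  set x := (n ^ 2 + r ^ 2 - l ^ 2) / (2 * n * r) with hx
  set y := (r ^ 2 + l ^ 2 - n ^ 2) / (2 * r * l) with hy
  set w := (l ^ 2 + n ^ 2 - r ^ 2) / (2 * l * n) with hw
  have ex : 1 - x ^ 2 = (S / (2 * n * r)) ^ 2 := by rw [hx, div_pow, div_pow, hS2]; field_simp; ring
  have ey : 1 - y ^ 2 = (S / (2 * r * l)) ^ 2 := by rw [hy, div_pow, div_pow, hS2]; field_simp; ring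
  have ew : 1 - w ^ 2 = (S / (2 * l * n)) ^ 2 := by rw [hw, div_pow, div_pow, hS2]; field_simp; ring
  have px : 0 < 1 - x ^ 2 := by rw [ex]; positivity
  have py : 0 < 1 - y ^ 2 := by rw [ey]; positivity
  have pw : 0 < 1 - w ^ 2 := by rw [ew]; positivity
  have x1 : -1 ≤ x := by nlinarith
  have x2 : x ≤ 1 := by nlinarith
  have y1 : -1 ≤ y := by nlinarith
  have y2 : y ≤ 1 := by nlinarith
  have w1 : -1 ≤ w := by nlinarith
  have w2 : w ≤ 1 := by nlinarith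
  have sx : Real.sin (Real.arccos x) = S / (2 * n * r) := by rw [Real.sin_arccos, ex, Real.sqrt_sq (by positivity)]
  have sy : Real.sin (Real.arccos y) = S / (2 * r * l) := by rw [Real.sin_arccos, ey, Real.sqrt_sq (by positivity)]
  have hcos : Real.cos (Real.arccos x + Real.arccos y) = -w := by
    rw [Real.cos_add, Real.cos_arccos x1 x2, Real.cos_arccos y1 y2, sx, sy]
    have : S / (2 * n * r) * (S / (2 * r * l)) = S ^ 2 / (4 * n * r ^ 2 * l) := by field_simp; ring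
    rw [this, hS2, hx, hy, hw]
    field_simp
    ring
  have hle : Real.arccos x + Real.arccos y ≤ Real.pi := by
    have h4 : 0 < x + y := by
      have : x + y = (l + n) * (r - (l - n)) * (r + (l - n)) / (2 * l * n * r) := by
        rw [hx, hy]; field_simp; ring
      rw [this]
      have a1 : 0 < r - (l - n) := by linarith
      have a2 : 0 < r + (l - n) := by linarith
      positivity
    have h5 : Real.arccos x ≤ Real.arccos (-y) := Real.arccos_le_arccos (by linarith)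
    rw [Real.arccos_neg] at h5
    linarith
  have h6 : Real.arccos w = Real.pi - (Real.arccos x + Real.arccos y) := by
    have h7 : Real.cos (Real.pi - (Real.arccos x + Real.arccos y)) = w := by rw [Real.cos_pi_sub, hcos, neg_neg]
    rw [← h7, Real.arccos_cos (by linarith) (by linarith [Real.arccos_nonneg x, Real.arccos_nonneg y])]
  show Real.arccos x + Real.arccos y + Real.arccos w = Real.pi
  rw [h6]; ring

/-- the sum of the three half angles. -/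
theorem thL_sum {X Y Z : ℂ} (hX : 0 < X.re) (hY : 0 < Y.re) (hZ : 0 < Z.re) (h1 : ‖Y‖ < ‖X‖ + ‖Z‖) (h2 : ‖X‖ < ‖Y‖ + ‖Z‖) (h3 : ‖Z‖ < ‖X‖ + ‖Y‖) :
    thL X Y Z + thL Y Z X + thL Z X Y = Real.pi / 2 := by
  have hX0 : X ≠ 0 := by rintro rfl; simp at hX
  have hY0 : Y ≠ 0 := by rintro rfl; simp at hY
  have hZ0 : Z ≠ 0 := by rintro rfl; simp at hZ
  have h4 := aA_sum (norm_pos_iff.2 hX0) (norm_pos_iff.2 hY0) (norm_pos_iff.2 hZ0) h1 h2 h3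
  unfold M4J.thL
  rw [(arg_div_pos hY hZ).1, (arg_div_pos hZ hX).1, (arg_div_pos hX hY).1]
  linarith

/-- sign of the half angle, weak form (`re (Y conj Z) ≥ 0`). -/
theorem sgn_weak {X Y Z : ℂ} (hY : Y ≠ 0) (hZ : Z ≠ 0) (hYZ : 0 ≤ (Y * conj Z).re) (h1 : ‖X‖ ≤ ‖Y‖ + ‖Z‖) (h2 : ‖Y‖ ≤ ‖X‖ + ‖Z‖) (h3 : ‖Z‖ ≤ ‖X‖ + ‖Y‖) :
    (0 ≤ thL X Y Z ↔ ‖X‖ ≤ ‖Y - I * Z‖) ∧ (0 < thL X Y Z ↔ ‖X‖ < ‖Y - I * Z‖) := by
  have hy : 0 < ‖Y‖ := norm_pos_iff.2 hY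
  have hz : 0 < ‖Z‖ := norm_pos_iff.2 hZ
  have hx : 0 ≤ ‖X‖ := norm_nonneg _
  have hns0 : 0 < normSq Z := normSq_pos.2 hZ
  have hre : 0 ≤ (Y / Z).re := by
    rw [div_re]
    have e : Y.re * Z.re / normSq Z + Y.im * Z.im / normSq Z = (Y * (starRingEnd ℂ) Z).re / normSq Z := by
      simp only [mul_re, conj_re, conj_im]; ring
    rw [e]; exact div_nonneg hYZ hns0.le
  set β := arg (Y / Z) with hβ
  have hβ1 := abs_le.1 (Complex.abs_arg_le_pi_div_two_iff.2 hre)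
  have hsin : Real.sin β * (‖Y‖ * ‖Z‖) = (Y * (starRingEnd ℂ) Z).im := by
    have h4 : Real.sin β = (Y / Z).im / ‖Y / Z‖ := Complex.sin_arg _
    have hns : normSq Z = ‖Z‖ ^ 2 := (Complex.sq_norm _).symm
    rw [h4, div_im, hns, norm_div]
    simp only [mul_im, conj_re, conj_im]
    field_simp
    ring
  have hsq : ‖Y - I * Z‖ ^ 2 = ‖Y‖ ^ 2 + ‖Z‖ ^ 2 - 2 * ‖Y‖ * ‖Z‖ * Real.sin β := by
    have h5 : ‖Y - I * Z‖ ^ 2 = ‖Y‖ ^ 2 + ‖Z‖ ^ 2 - 2 * (Y * (starRingEnd ℂ) Z).im := by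
      rw [nsq_sub, Complex.sq_norm, Complex.sq_norm]
    rw [h5, ← hsin]
    ring
  set x := (‖Y‖ ^ 2 + ‖Z‖ ^ 2 - ‖X‖ ^ 2) / (2 * ‖Y‖ * ‖Z‖) with hxd
  have hx1 : x ≤ 1 := by
    rw [hxd, div_le_one (by positivity)]
    nlinarith
  have hx2 : -1 ≤ x := by
    rw [hxd, le_div_iff₀ (by positivity)]
    nlinarith
  have hxe : x * (2 * ‖Y‖ * ‖Z‖) = ‖Y‖ ^ 2 + ‖Z‖ ^ 2 - ‖X‖ ^ 2 := by
    rw [hxd]; field_simp
  have hang : thL X Y Z = Real.pi / 2 - Real.arccos x - β := rfl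
  have hcos : Real.cos (Real.pi / 2 - β) = Real.sin β := Real.cos_pi_div_two_sub β
  have hac : Real.cos (Real.arccos x) = x := Real.cos_arccos hx2 hx1
  have i1 : (0 ≤ thL X Y Z ↔ Real.sin β ≤ x) := by
    rw [hang]
    constructor
    · intro h
      rw [← hcos, ← hac]
      exact Real.cos_le_cos_of_nonneg_of_le_pi (Real.arccos_nonneg x) (by linarith) (by linarith)
    · intro h
      by_contra hcon
      push Not at hcon
      have h6 := Real.cos_lt_cos_of_nonneg_of_le_pi (show 0 ≤ Real.pi / 2 - β by linarith) (Real.arccos_le_pi x) (show Real.pi / 2 - β < Real.arccos x by linarith)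
      rw [hcos, hac] at h6
      linarith
  have i2 : (0 < thL X Y Z ↔ Real.sin β < x) := by
    rw [hang]
    constructor
    · intro h
      rw [← hcos, ← hac]
      exact Real.cos_lt_cos_of_nonneg_of_le_pi (Real.arccos_nonneg x) (by linarith) (by linarith)
    · intro h
      by_contra hcon
      push Not at hcon
      have h6 := Real.cos_le_cos_of_nonneg_of_le_pi (show 0 ≤ Real.pi / 2 - β by linarith) (Real.arccos_le_pi x) (show Real.pi / 2 - β ≤ Real.arccos x by linarith)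
      rw [hcos, hac] at h6
      linarith
  have hp : 0 < 2 * ‖Y‖ * ‖Z‖ := by positivity
  refine ⟨i1.trans ?_, i2.trans ?_⟩
  · rw [← pow_le_pow_iff_left₀ hx (norm_nonneg _) two_ne_zero, hsq, ← mul_le_mul_iff_left₀ hp, hxe]
    constructor <;> intro h <;> linarith
  · rw [← pow_lt_pow_iff_left₀ hx (norm_nonneg _) two_ne_zero, hsq, ← mul_lt_mul_iff_left₀ hp, hxe]
    constructor <;> intro h <;> linarith

end Pool.Agent.M4
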