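import Pool.Agent.helper95.M4.VDefs
import Pool.Agent.helper8.M4.TTO
import Pool.Agent.helper8.M4V.Cth

/-!
# Project M4 (MP_1b8d20_an, S03975), block V: the half angles, the direction and the corners of the bottom chain (helper8)
-/

set_option autoImplicit false

namespace Pool.Agent.M4

open Complex ComplexConjugate Topology Filter

/-- the half angles of the visible arcs. -/
noncomputable def ths (w : List Bool) (z : ℂ) (j : ℤ) : ℝ := M4J.thL (Xs w z j) (Xs w z (j + 1)) (Xs w z (j + 2))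

/-- the angle of the canonical direction. -/
noncomputable def psi (w : List Bool) (z : ℂ) : ℝ :=
  2 / Real.pi * (ths w z 0 * arg (Xs w z 0) + ths w z 1 * arg (Xs w z 1) + ths w z 2 * arg (Xs w z 2))

/-- the canonical direction (`re (oms * y)` is the horizontal coordinate). -/
noncomputable def oms (w : List Bool) (z : ℂ) : ℂ := exp (psi w z * I)

/-- the canonical down direction. -/
noncomputable def ds (w : List Bool) (z : ℂ) : ℂ := -I * conj (oms w z)

/-- the corners. -/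
noncomputable def vs (w : List Bool) (z : ℂ) (j : ℤ) : ℂ := cs w z j - I * exp (ths w z j * I) / Xs w z j

/-- weak top condition: at most one of the three angles vanishes. -/
structure WTop (L N R : ℂ) : Prop where
  mar : Mk L N R
  reL : 0 < L.re
  reN : 0 < N.re
  reR : 0 < R.re
  LR : 0 ≤ (L * conj R).re
  NR : 0 < (N * conj R).re
  LN : 0 < (L * conj N).re
  n1 : ‖N‖ < ‖L‖ + ‖R‖
  n2 : ‖L‖ < ‖N‖ + ‖R‖
  n3 : ‖R‖ < ‖L‖ + ‖N‖
  hL : ‖L‖ ≤ ‖N - I * R‖
  hN : ‖N‖ ≤ ‖L + I * R‖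
  hR : ‖R‖ ≤ ‖L - I * N‖
  t1 : ‖L‖ < ‖N - I * R‖ ∨ ‖R‖ < ‖L - I * N‖
  t2 : ‖L‖ < ‖N - I * R‖ ∨ ‖N‖ < ‖L + I * R‖
  t3 : ‖N‖ < ‖L + I * R‖ ∨ ‖R‖ < ‖L - I * N‖
  cor : ‖N‖ < ‖L + I * R‖ ∨ 0 < (L * conj R).re

/-- top triples are weak top triples. -/
theorem WTop_of_Top {L N R : ℂ} (hm : Mk L N R) (h : Adm L N R) (ht : Top L N R) : WTop L N R := by
  obtain ⟨t1, t2, t3⟩ := h.tri
  have h1 := ht.reNR
  have h2 := ht.reLN
  have hreN : 0 < N.re := by
    simp only [mul_re, conj_re, conj_im] at h1 h2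
    by_contra hcon
    push Not at hcon
    have h3 : N.re * R.re ≤ 0 := mul_nonpos_of_nonpos_of_nonneg hcon h.reR.le
    have h4 : L.re * N.re ≤ 0 := mul_nonpos_of_nonneg_of_nonpos h.reL.le hcon
    have h5 : 0 < N.im * R.im := by linarith
    have h6 : 0 < L.im * N.im := by linarith
    have h7 : 0 < N.im := by
      by_contra h8
      push Not at h8
      have := mul_nonpos_of_nonneg_of_nonpos h.imL.le h8
      linarith
    have := mul_neg_of_pos_of_neg h7 h.imR
    linarith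
  exact ⟨hm, h.reL, hreN, h.reR, h.gam, h1, h2, t1, t2, t3, ht.thL, h.hi.le, ht.thR, ht.ne, Or.inr h.hi, Or.inl h.hi, Or.inl h.hi⟩

theorem InT.wtop {w : List Bool} {z : ℂ} (h : InT w z) : WTop (Lf w z) (Nf w z) (Rf w z) :=
  WTop_of_Top (Mk_Tr w z) (ADM w z h.1) h.2

/-- the child at a left wall. -/
theorem WTop_childL {L N R : ℂ} (h : Adm L N R) (hm : Mk L N R) (h1 : 0 < (N * conj R).re) (h0 : 0 < N.im) (h3 : ‖L‖ = ‖N - I * R‖) :
    WTop N (N * R - L) R := by
  obtain ⟨g1, g2, g3, g4⟩ := IDL_child h hm h1 h0 h3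
  have hmc : Mk N (N * R - L) R := Mk_dropL (t := ⟨L, N, R⟩) hm
  have hreN : 0 < N.re := by
    have h4 := h1
    simp only [mul_re, conj_re, conj_im] at h4
    by_contra hcon
    push Not at hcon
    have h6 : N.re * R.re ≤ 0 := mul_nonpos_of_nonpos_of_nonneg hcon h.reR.le
    have h7 : N.im * R.im < 0 := mul_neg_of_pos_of_neg h0 h.imR
    linarith
  have hsb : 0 < (N * conj R).im := by
    simp only [mul_im, conj_re, conj_im]
    have h6 : 0 < N.im * R.re := mul_pos h0 h.reR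
    have h7 : N.re * R.im < 0 := mul_neg_of_pos_of_neg hreN h.imR
    linarith
  have hN0 : 0 < ‖N‖ := norm_pos_iff.2 h.N0
  have hR0 : 0 < ‖R‖ := norm_pos_iff.2 h.R0
  have hL0 : 0 < ‖L‖ := norm_pos_iff.2 h.L0
  -- the norm of the child
  have hK : ‖N * R - L‖ = ‖N + I * R‖ := by
    have hprod : ‖L‖ * ‖N * R - L‖ = ‖N - I * R‖ * ‖N + I * R‖ := by
      rw [← norm_mul, ← norm_mul]
      congr 1
      unfold Mk at hm
      linear_combination -hm + R ^ 2 * I_sq
    rw [← h3] at hprod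
    exact mul_left_cancel₀ hL0.ne' hprod
  have hKsq : ‖N * R - L‖ ^ 2 = ‖N‖ ^ 2 + ‖R‖ ^ 2 + 2 * (N * conj R).im := by
    rw [hK, nsq_add, Complex.sq_norm, Complex.sq_norm]
  have him : (N * conj R).im < ‖N‖ * ‖R‖ := by
    have h5 : (N * conj R).re ^ 2 + (N * conj R).im ^ 2 = (‖N‖ * ‖R‖) ^ 2 := by
      have h6 : ‖N * conj R‖ ^ 2 = (‖N‖ * ‖R‖) ^ 2 := by rw [norm_mul, Complex.norm_conj]
      rw [← h6, Complex.sq_norm, normSq_apply]; ring
    have h6 : (N * conj R).im ^ 2 < (‖N‖ * ‖R‖) ^ 2 := by rw [← h5]; have := pow_pos h1 2; linarith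
    exact lt_of_pow_lt_pow_left₀ 2 (by positivity) h6
  have hreK : 0 < (N * R - L).re := by
    generalize N * R - L = K at g1 g2
    simp only [mul_re, conj_re, conj_im] at g1 g2
    by_contra hcon
    push Not at hcon
    have h6 : K.re * R.re ≤ 0 := mul_nonpos_of_nonpos_of_nonneg hcon h.reR.le
    have h7 : N.re * K.re ≤ 0 := mul_nonpos_of_nonneg_of_nonpos hreN.le hcon
    have h8 : 0 < K.im * R.im := by linarith
    have h9 : 0 < N.im * K.im := by linarith
    have h10 : 0 < K.im := (mul_pos_iff_of_pos_left h0).1 h9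
    have := mul_neg_of_pos_of_neg h10 h.imR
    linarith
  have k1 : ‖N‖ < ‖N * R - L‖ := by
    rw [← pow_lt_pow_iff_left₀ (norm_nonneg _) (norm_nonneg _) two_ne_zero, hKsq]
    have := pow_pos hR0 2
    linarith
  have k2 : ‖R‖ < ‖N * R - L‖ := by
    rw [← pow_lt_pow_iff_left₀ (norm_nonneg _) (norm_nonneg _) two_ne_zero, hKsq]
    have := pow_pos hN0 2
    linarith
  have k3 : ‖N * R - L‖ < ‖N‖ + ‖R‖ := by
    rw [← pow_lt_pow_iff_left₀ (norm_nonneg _) (by positivity) two_ne_zero, hKsq]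
    nlinarith
  exact ⟨hmc, hreN, hreK, h.reR, h1.le, g1, g2, k3, by linarith, by linarith, g3.le, hK.le, g4.le, Or.inl g3, Or.inl g3, Or.inr g4, Or.inr h1⟩

theorem WTop_conj {L N R : ℂ} (h : WTop L N R) : WTop (conj R) (conj N) (conj L) := by
  have e1 : ∀ X Y : ℂ, ‖conj X + I * conj Y‖ = ‖Y + I * X‖ := by
    intro X Y
    have : conj X + I * conj Y = conj (-I * (Y + I * X)) := by
      simp only [map_mul, map_add, map_neg, conj_I]
      linear_combination (conj X) * I_sq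
    rw [this, Complex.norm_conj, norm_mul, norm_neg, norm_I, one_mul]
  have e2 : ∀ X Y : ℂ, (conj X * conj (conj Y)).re = (Y * conj X).re := by
    intro X Y
    rw [Complex.conj_conj, mul_comm]
  refine ⟨Mk_conj h.mar, ?_, ?_, ?_, ?_, ?_, ?_, ?_, ?_, ?_, ?_, ?_, ?_, ?_, ?_, ?_, ?_⟩
  · rw [conj_re]; exact h.reR
  · rw [conj_re]; exact h.reN
  · rw [conj_re]; exact h.reL
  · rw [e2]; exact h.LR
  · rw [e2]; exact h.LN
  · rw [e2]; exact h.NR
  · simp only [Complex.norm_conj]; linarith [h.n1]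
  · simp only [Complex.norm_conj]; linarith [h.n3]
  · simp only [Complex.norm_conj]; linarith [h.n2]
  · rw [nrm_conj, Complex.norm_conj]; exact h.hR
  · rw [e1, Complex.norm_conj]; exact h.hN
  · rw [nrm_conj, Complex.norm_conj]; exact h.hL
  · rw [nrm_conj, nrm_conj, Complex.norm_conj, Complex.norm_conj]; exact h.t1.symm
  · rw [nrm_conj, e1, Complex.norm_conj, Complex.norm_conj]; exact h.t3.symm
  · rw [nrm_conj, e1, Complex.norm_conj, Complex.norm_conj]; exact h.t2.symm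
  · rw [e1, e2, Complex.norm_conj]; exact h.cor

/-- the child at a right wall. -/
theorem WTop_childR {L N R : ℂ} (h : Adm L N R) (hm : Mk L N R) (h2 : 0 < (L * conj N).re) (h0 : N.im < 0) (h3 : ‖R‖ = ‖L - I * N‖) :
    WTop L (L * N - R) N := by
  have h5 := WTop_childL (Adm_conj h) (Mk_conj hm) (by
    simp only [mul_re, conj_re, conj_im] at h2 ⊢
    linarith) (by rw [conj_im]; linarith) (by rw [nrm_conj, Complex.norm_conj]; exact h3)
  have h6 := WTop_conj h5
  simp only [map_sub, map_mul, Complex.conj_conj] at h6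
  rw [mul_comm L N]
  exact h6

end Pool.Agent.M4
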